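import Mathlib

/-!
# KU-DEP: the roots

`M` = the splitting field of `P` over `ℚ` (`Polynomial.SplittingField (P.map (Int.castRingHom ℚ))`, a number field:
`CharZero`, finite dimensional over `ℚ`). The roots of `P` in `M` are integral over `ℤ` (`P` monic), so they are elements of
`𝓞 M`, and `P = ∏ (X - γ)` over `M`, hence over `𝓞 M` (`𝓞 M → M` is injective; `Polynomial.map_injective`). Let `γ ∈ G`,
`γ ≠ 0`, not of the second kind: `γ ^ A = q ^ B` with `A ≠ 0`. If `A ∣ B`, `B = A c`: with an embedding `φ : M →+* ℂ`,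
`φ γ` is a root of `P` and `(φ γ) ^ A = q ^ (A c)`, against `hr`. So `A ∤ B` and there are a prime `s` and `f` with
`s ^ f ∣ A`, `s ^ f ∤ B` (`Nat.dvd_iff_prime_pow_dvd_dvd`).
-/

set_option autoImplicit false

open Polynomial NumberField

namespace H13.KU

theorem dep (P : ℤ[X]) (hP : P.Monic) (q : ℕ) (hq : 2 ≤ q)
    (hr : ∀ γ : ℂ, aeval γ P = 0 → ∀ r c : ℕ, r ≠ 0 → γ ^ r ≠ (q : ℂ) ^ (r * c)) :
    ∃ (M : Type) (_ : Field M) (_ : NumberField M) (G : Multiset (𝓞 M)),
      P.map (Int.castRingHom (𝓞 M)) = (G.map fun γ => X - C γ).prod ∧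
      ∀ γ ∈ G, γ = 0 ∨ (γ ≠ 0 ∧ ∀ A B : ℕ, γ ^ A = (q : 𝓞 M) ^ B → A = 0) ∨
        ∃ A B s f : ℕ, s.Prime ∧ s ^ f ∣ A ∧ ¬ s ^ f ∣ B ∧ γ ^ A = (q : 𝓞 M) ^ B := by
  classical
  let p : ℚ[X] := P.map (Int.castRingHom ℚ)
  let M : Type := p.SplittingField
  haveI hM : NumberField M := NumberField.mk
  have hm0 : p.map (algebraMap ℚ M) = P.map (Int.castRingHom M) := by
    rw [Polynomial.map_map]
    exact congrArg (fun r : ℤ →+* M => P.map r) (RingHom.ext_int _ _)
  have hspl : (P.map (Int.castRingHom M)).Splits := by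
    rw [← hm0]
    exact SplittingField.splits p
  have hmm : (P.map (Int.castRingHom M)).Monic := hP.map _
  have hprod := hspl.eq_prod_roots_of_monic hmm
  set R : Multiset M := (P.map (Int.castRingHom M)).roots with hR
  have hroot : ∀ x ∈ R, aeval x P = 0 := by
    intro x hx
    rw [hR, mem_roots hmm.ne_zero, IsRoot.def, eval_map] at hx
    rw [aeval_def]
    exact hx
  have hint : ∀ x ∈ R, IsIntegral ℤ x := fun x hx => ⟨P, hP, hroot x hx⟩
  let G : Multiset (𝓞 M) := R.attach.map fun x => ⟨x.1, hint x.1 x.2⟩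
  refine ⟨M, inferInstance, hM, G, ?_, ?_⟩
  · apply Polynomial.map_injective (algebraMap (𝓞 M) M) RingOfIntegers.coe_injective
    rw [Polynomial.map_map, Polynomial.map_multiset_prod, Multiset.map_map, Multiset.map_map]
    have h1 : (algebraMap (𝓞 M) M).comp (Int.castRingHom (𝓞 M)) = Int.castRingHom M := RingHom.ext_int _ _
    rw [h1]
    conv_lhs => rw [hprod, ← Multiset.attach_map_val R, Multiset.map_map]
    congr 1
    refine Multiset.map_congr rfl fun x _ => ?_
    simp only [Function.comp_apply, Polynomial.map_sub, map_X, map_C]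
    rfl
  · intro γ hγ
    obtain ⟨x, _, hx⟩ := Multiset.mem_map.1 hγ
    have hγ0 : aeval (γ : M) P = 0 := by
      rw [← hx]
      exact hroot x.1 x.2
    by_cases h0 : γ = 0
    · exact Or.inl h0
    by_cases h1 : ∀ A B : ℕ, γ ^ A = (q : 𝓞 M) ^ B → A = 0
    · exact Or.inr (Or.inl ⟨h0, h1⟩)
    · push Not at h1
      obtain ⟨A, B, hAB, hA⟩ := h1
      right
      right
      have hnd : ¬ A ∣ B := by
        rintro ⟨c, rfl⟩
        obtain ⟨φ⟩ : Nonempty (M →+* ℂ) := inferInstance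
        refine hr (φ (γ : M)) ?_ A c hA ?_
        · have h2 := Polynomial.aeval_algHom_apply (φ.toIntAlgHom) (γ : M) P
          rw [hγ0, map_zero] at h2
          exact h2
        · have h2 := congrArg (fun z : 𝓞 M => φ (z : M)) hAB
          simpa using h2
      rw [Nat.dvd_iff_prime_pow_dvd_dvd] at hnd
      push Not at hnd
      obtain ⟨s, f, hs, h2, h3⟩ := hnd
      exact ⟨A, B, s, f, hs, h2, h3, hAB⟩

end H13.KU
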