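import Pool.Agent.H13.KU.Kmd

/-!
# KU-GD: half of the primes are good

`c = card ι`. `Bad i` = the set of `kmd` for `n := m i`, the root `ζ ^ (n / m i)` and `α i`, `d = 2 c + 1`:
`(2 c + 1) PZ (Bad i) s ≤ log (1 / (s - 1)) + C_i`. `A₀` = the `v` with `nm v` not prime: `PZ A₀ ≤ C` (`H63.MA.pz_deg`).
`A₁` = the `v` with `nm v ≤ B` or `n ∈ v`: finite (finitely many ideals of bounded norm,
`Ideal.finite_setOf_absNorm_le`, and `Ideal.finite_factors`), `H63.MA.pz_finite`. If `v ∉ A₀ ∪ A₁`, then `n ∣ nm v - 1`: the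
powers of `ζ` are different modulo `v` (`1 - ζ ^ i ∣ n` for `0 < i < n`), so `(𝓞 K / v)^*`, of order `nm v - 1`, has an
element of order `n`. So every `v` is in `A₀ ∪ A₁ ∪ Good ∪ ⋃ Bad i` and with `L = log (1 / (s - 1))`
`L - C ≤ PZ univ ≤ C + PZ Good + ∑ (L + C_i) / (2 c + 1)` (`H63.MA.pz_all`, `pz_add`, `pz_mono`; induction over a finite union),
and `c / (2 c + 1) L ≤ L / 2` as `L ≥ 0` for `s ≤ 2`.
-/

set_option autoImplicit false

open Polynomial NumberField IsDedekindDomain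
open H63.MA (Pl nm PZ Over)

noncomputable section

namespace H13.KU

private theorem gd_union {K : Type} [Field K] [NumberField K] (S S' : Set (Pl K)) {s : ℝ}
    (hs : 1 < s) : PZ (S ∪ S') s ≤ PZ S s + PZ S' s := by
  have h1 := H63.MA.pz_add S S' hs
  have h2 := H63.MA.pz_nonneg (S ∩ S') s
  linarith

private theorem gd_biUnion {K : Type} [Field K] [NumberField K] {ι : Type} (t : Finset ι)
    (S : ι → Set (Pl K)) {s : ℝ} (hs : 1 < s) : PZ (⋃ i ∈ t, S i) s ≤ ∑ i ∈ t, PZ (S i) s := by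
  classical
  induction t using Finset.induction_on with
  | empty =>
    rw [Finset.sum_empty]
    have h1 : (⋃ i ∈ (∅ : Finset ι), S i) = (∅ : Set (Pl K)) := by simp
    rw [h1]
    unfold PZ
    simp
  | insert i t hi ih =>
    rw [Finset.sum_insert hi, Finset.set_biUnion_insert]
    exact (gd_union _ _ hs).trans (add_le_add le_rfl ih)

private theorem gd_finite (K : Type) [Field K] [NumberField K] (B : ℕ) :
    {v : Pl K | nm v ≤ B}.Finite := by
  have hinj : Function.Injective fun v : Pl K => v.asIdeal := fun v w h => HeightOneSpectrum.ext h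
  exact (Ideal.finite_setOfPred_absNorm_le (S := 𝓞 K) B).preimage hinj.injOn

private theorem gd_dvd {K : Type} [Field K] [NumberField K] {n : ℕ} (hn : n ≠ 0) {ζ : K}
    (hζ : IsPrimitiveRoot ζ n) (v : Pl K) (hl : (nm v).Prime) (hv : n < nm v) :
    n ∣ nm v - 1 := by
  classical
  haveI : NeZero n := ⟨hn⟩
  haveI hmax : v.asIdeal.IsMaximal := v.isMaximal
  letI : Field (𝓞 K ⧸ v.asIdeal) := Ideal.Quotient.field v.asIdeal
  have hcard : Nat.card (𝓞 K ⧸ v.asIdeal) = nm v := by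
    unfold nm
    rw [Ideal.absNorm_apply, Submodule.cardQuot_apply]
  haveI : Finite (𝓞 K ⧸ v.asIdeal) := Nat.finite_of_card_ne_zero (by rw [hcard]; exact hl.ne_zero)
  letI : Fintype (𝓞 K ⧸ v.asIdeal) := Fintype.ofFinite _
  have hcard' : Fintype.card (𝓞 K ⧸ v.asIdeal) = nm v := by
    rw [← hcard, Nat.card_eq_fintype_card]
  have h1 : (Ideal.absNorm v.asIdeal).Coprime n := by
    refine (Nat.Prime.coprime_iff_not_dvd hl).2 fun h2 => ?_
    have h3 := Nat.le_of_dvd (Nat.pos_of_ne_zero hn) h2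
    exact absurd hv (not_lt.2 h3)
  have h2 : IsPrimitiveRoot (Ideal.Quotient.mk v.asIdeal hζ.toInteger) n :=
    IsPrimitiveRoot.idealQuotient_mk hζ.toInteger_isPrimitiveRoot hl.ne_one h1
  have h3 := FiniteField.pow_card_sub_one_eq_one (Ideal.Quotient.mk v.asIdeal hζ.toInteger)
    (h2.ne_zero hn)
  rw [hcard'] at h3
  exact h2.dvd_of_pow_eq_one _ h3

theorem gd {K : Type} [Field K] [NumberField K] (n : ℕ) (hn : n ≠ 0) (ζ : K)
    (hζ : IsPrimitiveRoot ζ n) {ι : Type} [Fintype ι] (m : ι → ℕ) (α : ι → 𝓞 K)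
    (hm : ∀ i, m i ∣ n) (hα : ∀ i, α i ≠ 0)
    (hd : ∀ i, ∀ j : ℕ, j ≠ 0 → (∃ y : K, (α i : K) ^ j = y ^ m i) → 2 * Fintype.card ι + 1 ≤ j)
    (B : ℕ) :
    ∃ C : ℝ, ∀ s : ℝ, 1 < s → s ≤ 2 → 1 / 2 * Real.log (1 / (s - 1)) - C ≤
      PZ {v : Pl K | (nm v).Prime ∧ B < nm v ∧ n ∣ nm v - 1 ∧
        ∀ i, α i ^ ((nm v - 1) / m i) - 1 ∉ v.asIdeal} s := by
  classical
  set c : ℕ := Fintype.card ι with hc
  have hm0 : ∀ i, m i ≠ 0 := fun i h0 => by
    have h1 := hm i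
    rw [h0, zero_dvd_iff] at h1
    exact hn h1
  have hkm : ∀ i, ∃ C : ℝ, ∀ s : ℝ, 1 < s → s ≤ 2 → ((2 * c + 1 : ℕ) : ℝ) *
      PZ {v : Pl K | (nm v).Prime ∧ m i ∣ nm v - 1 ∧
        α i ^ ((nm v - 1) / m i) - 1 ∈ v.asIdeal} s ≤ Real.log (1 / (s - 1)) + C := by
    intro i
    have h1 : IsPrimitiveRoot (ζ ^ (n / m i)) (m i) :=
      hζ.pow (Nat.pos_of_ne_zero hn) (Nat.div_mul_cancel (hm i)).symm
    exact kmd (m i) (hm0 i) _ h1 (α i) (hα i) (2 * c + 1) fun j hj hy => hd i j hj hy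
  choose Ci hCi using hkm
  obtain ⟨C₀, hC₀⟩ := H63.MA.pz_deg K
  obtain ⟨C₁, hC₁⟩ := H63.MA.pz_finite (gd_finite K (max B n))
  obtain ⟨C₂, hC₂⟩ := H63.MA.pz_all K
  refine ⟨C₀ + C₁ + C₂ + (∑ i, Ci i) / (2 * c + 1), fun s hs hs2 => ?_⟩
  set Good : Set (Pl K) := {v : Pl K | (nm v).Prime ∧ B < nm v ∧ n ∣ nm v - 1 ∧
        ∀ i, α i ^ ((nm v - 1) / m i) - 1 ∉ v.asIdeal} with hGood
  set Bad : ι → Set (Pl K) := fun i => {v : Pl K | (nm v).Prime ∧ m i ∣ nm v - 1 ∧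
        α i ^ ((nm v - 1) / m i) - 1 ∈ v.asIdeal} with hBad
  set A₀ : Set (Pl K) := {v : Pl K | ¬ (nm v).Prime} with hA₀
  set A₁ : Set (Pl K) := {v : Pl K | nm v ≤ max B n} with hA₁
  have hcov : (Set.univ : Set (Pl K)) ⊆
      (A₀ ∪ A₁) ∪ (Good ∪ ⋃ i ∈ (Finset.univ : Finset ι), Bad i) := by
    intro v _
    by_cases h0 : (nm v).Prime
    · by_cases h1 : nm v ≤ max B n
      · exact Or.inl (Or.inr h1)
      · have h2 : max B n < nm v := not_le.1 h1
        have h3 : B < nm v := lt_of_le_of_lt (le_max_left _ _) h2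
        have h4 : n < nm v := lt_of_le_of_lt (le_max_right _ _) h2
        have h5 := gd_dvd hn hζ v h0 h4
        by_cases h6 : ∀ i, α i ^ ((nm v - 1) / m i) - 1 ∉ v.asIdeal
        · exact Or.inr (Or.inl ⟨h0, h3, h5, h6⟩)
        · push Not at h6
          obtain ⟨i, hi⟩ := h6
          refine Or.inr (Or.inr ?_)
          simp only [Set.mem_iUnion]
          exact ⟨i, Finset.mem_univ i, h0, (hm i).trans h5, hi⟩
    · exact Or.inl (Or.inl h0)
  have h1 : PZ (Set.univ : Set (Pl K)) s ≤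
      (PZ A₀ s + PZ A₁ s) + (PZ Good s + ∑ i, PZ (Bad i) s) := by
    refine (H63.MA.pz_mono hcov hs).trans ((gd_union _ _ hs).trans ?_)
    refine add_le_add (gd_union _ _ hs) ((gd_union _ _ hs).trans ?_)
    exact add_le_add le_rfl (gd_biUnion _ _ hs)
  have h2 := (abs_le.1 (hC₂ s hs hs2)).1
  have h3 := hC₀ s hs
  have h4 := hC₁ s hs
  set L : ℝ := Real.log (1 / (s - 1)) with hL
  have hL0 : 0 ≤ L := by
    refine Real.log_nonneg ?_
    rw [le_div_iff₀ (by linarith)]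
    linarith
  have hc0 : (0 : ℝ) < 2 * c + 1 := by positivity
  have h5 : ∑ i, PZ (Bad i) s ≤ (c * L + ∑ i, Ci i) / (2 * c + 1) := by
    rw [le_div_iff₀ hc0]
    have h6 : ∑ i, ((2 * (c : ℝ) + 1) * PZ (Bad i) s) ≤ ∑ i, (L + Ci i) := by
      refine Finset.sum_le_sum fun i _ => ?_
      have h7 := hCi i s hs hs2
      push_cast at h7
      exact h7
    rw [← Finset.mul_sum, Finset.sum_add_distrib, Finset.sum_const, Finset.card_univ,
      nsmul_eq_mul] at h6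
    linarith
  have h6 : (c * L + ∑ i, Ci i) / (2 * c + 1) ≤ L / 2 + (∑ i, Ci i) / (2 * c + 1) := by
    rw [add_div]
    refine add_le_add ?_ le_rfl
    rw [div_le_iff₀ hc0]
    nlinarith
  linarith

end H13.KU
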