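import Mathlib

/-!
# KU-ORD: orders in a field

`ordB`: let `k = orderOf g`, `k ∣ l'` (`h1`), `k ≠ 0` as `l' ≠ 0` (`h2`: if `l' = 0` then `g ^ 0 = 1`). The exponent of `s` in
`k` is at least `E`: otherwise the exponent of `s` in `k` is `< E`, the exponent in `l'` is `≥ N + E`, so `k ∣ l' / s ^ N`
(write `l' = k m`; `s ^ (N + 1) ∣ m`, hence `l' / s ^ N = k (m / s ^ N)`), against `h2`. So `s ^ f ∣ k` as `f ≤ E`. If
`x ^ k = 1`, then with `A = s ^ f A'`, `k = s ^ f k'`: `1 = x ^ (k A') = x ^ (k' A) = g ^ (B k')`, `k = s ^ f k' ∣ B k'`,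
`k' ≠ 0`, so `s ^ f ∣ B`: contradiction.
-/

set_option autoImplicit false

namespace H13.KU

theorem ordA {k : Type} [Field k] (g x : k) (n : ℕ) (hg : g ^ n = 1) (hx : x ^ n ≠ 1) :
    x ^ orderOf g ≠ 1 := by
  intro h
  obtain ⟨m, hm⟩ := orderOf_dvd_of_pow_eq_one hg
  apply hx
  rw [hm, pow_mul, h, one_pow]

theorem ordB {k : Type} [Field k] (g x : k) (l' s N E f A B : ℕ) (hs : s.Prime)
    (hd : s ^ (N + E) ∣ l') (h1 : g ^ l' = 1) (h2 : g ^ (l' / s ^ N) ≠ 1) (hf : f ≤ E)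
    (hA : s ^ f ∣ A) (hB : ¬ s ^ f ∣ B) (hx : x ^ A = g ^ B) : x ^ orderOf g ≠ 1 := by
  intro hk
  have hl0 : l' ≠ 0 := by
    intro h
    apply h2
    rw [h, Nat.zero_div, pow_zero]
  have hkd : orderOf g ∣ l' := orderOf_dvd_of_pow_eq_one h1
  have hk0 : orderOf g ≠ 0 := fun h => hl0 (by rw [h] at hkd; exact Nat.eq_zero_of_zero_dvd hkd)
  have hspos : 0 < s ^ N := pow_pos hs.pos N
  have hE : s ^ E ∣ orderOf g := by
    by_contra hcon
    obtain ⟨m, hm⟩ := hkd
    -- `s ^ N ∣ m`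
    have h3 : s ^ N ∣ m := by
      have hm0 : m ≠ 0 := by
        rintro rfl
        rw [mul_zero] at hm
        exact hl0 hm
      rw [hs.pow_dvd_iff_le_factorization hm0]
      have h4 : ¬ E ≤ (orderOf g).factorization s := by
        intro h5
        exact hcon ((hs.pow_dvd_iff_le_factorization hk0).2 h5)
      have h6 : N + E ≤ l'.factorization s := (hs.pow_dvd_iff_le_factorization hl0).1 hd
      rw [hm, Nat.factorization_mul hk0 hm0, Finsupp.add_apply] at h6
      omega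
    obtain ⟨m', hm'⟩ := h3
    apply h2
    have h7 : l' / s ^ N = orderOf g * m' := by
      rw [hm, hm', mul_left_comm, Nat.mul_div_cancel_left _ hspos]
    rw [h7, pow_mul, pow_orderOf_eq_one, one_pow]
  obtain ⟨k', hk'⟩ := (pow_dvd_pow s hf).trans hE
  obtain ⟨A', hA'⟩ := hA
  have h8 : g ^ (B * k') = 1 := by
    calc g ^ (B * k') = (g ^ B) ^ k' := pow_mul _ _ _
      _ = (x ^ A) ^ k' := by rw [hx]
      _ = (x ^ orderOf g) ^ A' := by
        rw [← pow_mul, ← pow_mul, hA', hk']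
        congr 1
        ring
      _ = 1 := by rw [hk, one_pow]
  have h9 := orderOf_dvd_of_pow_eq_one h8
  rw [hk', mul_comm B k', mul_comm (s ^ f) k'] at h9
  have hk'0 : 0 < k' := by
    rcases Nat.eq_zero_or_pos k' with h | h
    · rw [h, mul_zero] at hk'
      exact absurd hk' hk0
    · exact h
  exact hB (Nat.dvd_of_mul_dvd_mul_left hk'0 h9)

end H13.KU
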