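import Pool.Agent.H63.MA.LBd
import Pool.Agent.H13.KU.Ord

/-!
# KU-LOC: a good place gives a good prime

`l = nm v` is prime, `κ = 𝓞 K / v` is a field with `l` elements, and the ring homomorphism `ZMod l → κ` is bijective
(`(l : 𝓞 K) ∈ v`: `Ideal.absNorm_mem`). Let `b ∈ ZMod l` be a root of `P`; its image `b'` in `κ` is a root of
`P = ∏ (X - γ)` (`hG` pushed to `κ` through `𝓞 M → 𝓞 K → κ`), so `b'` is the class of some `γ ∈ G`
(`Multiset.prod_eq_zero_iff`). `g` = the class of `q` in `κ`, `orderOf g = orderOf (q : ZMod l)` (`orderOf_injective`).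
It suffices to show `b' ^ orderOf g ≠ 1`. `l' = l - 1`; `g ^ ((l - 1) / r) = ρ ^ (l - 1) = 1` in `κ` (`ρ` is integral as
`ρ ^ r = q`; `r ∣ l - 1`; the class of `ρ` is not zero, since `q ∉ v`: `hq`), in particular `g ^ (l - 1) = 1`.
* `γ = 0`: `b' = 0`, `0 ^ orderOf g ≠ 1` as `orderOf g ≠ 0` (`g ^ (l - 1) = 1`, `l - 1 ≠ 0`).
* `γ ^ ((l - 1) / r) - 1 ∉ v`: `ordA` with `n = (l - 1) / r`.
* third case: `ordB` with `g`, `x = b'`, `l' = l - 1`, `s ^ (N + E) ∣ l - 1`, `h2` from `hs`.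
-/

set_option autoImplicit false

open Polynomial NumberField IsDedekindDomain
open H63.MA (Pl nm PZ Over)

namespace H13.KU

theorem loc {M K : Type} [Field M] [NumberField M] [Field K] [NumberField K] [Algebra M K]
    (P : ℤ[X]) (G : Multiset (𝓞 M))
    (hG : P.map (Int.castRingHom (𝓞 M)) = (G.map fun γ => X - C γ).prod) (q r N E : ℕ)
    (hr : r ≠ 0) (ρ : K) (hρ : ρ ^ r = (q : K)) (S : Finset ℕ) (hS : ∀ s ∈ S, s.Prime) (v : Pl K)
    (hl : (nm v).Prime) (hq : (q : 𝓞 K) ∉ v.asIdeal)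
    (hn : r * ∏ s ∈ S, s ^ (N + E) ∣ nm v - 1)
    (hγ : ∀ γ ∈ G, γ = 0 ∨ (algebraMap (𝓞 M) (𝓞 K) γ) ^ ((nm v - 1) / r) - 1 ∉ v.asIdeal ∨
      ∃ A B s f : ℕ, s ∈ S ∧ f ≤ E ∧ s ^ f ∣ A ∧ ¬ s ^ f ∣ B ∧ γ ^ A = (q : 𝓞 M) ^ B)
    (hs : ∀ s ∈ S, (q : 𝓞 K) ^ ((nm v - 1) / s ^ N) - 1 ∉ v.asIdeal) (b : ZMod (nm v))
    (hb : (P.map (Int.castRingHom (ZMod (nm v)))).eval b = 0) :
    b ^ orderOf (q : ZMod (nm v)) ≠ 1 := by
  classical
  haveI hmax : v.asIdeal.IsMaximal := v.isMaximal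
  letI : Field (𝓞 K ⧸ v.asIdeal) := Ideal.Quotient.field v.asIdeal
  haveI hlf : Fact (nm v).Prime := ⟨hl⟩
  have hcard : Nat.card (𝓞 K ⧸ v.asIdeal) = nm v := by
    unfold nm
    rw [Ideal.absNorm_apply, Submodule.cardQuot_apply]
  haveI : Finite (𝓞 K ⧸ v.asIdeal) := Nat.finite_of_card_ne_zero (by rw [hcard]; exact hl.ne_zero)
  letI : Fintype (𝓞 K ⧸ v.asIdeal) := Fintype.ofFinite _
  have hcard' : Fintype.card (𝓞 K ⧸ v.asIdeal) = nm v := by
    rw [← hcard, Nat.card_eq_fintype_card]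
  set π : 𝓞 K →+* 𝓞 K ⧸ v.asIdeal := Ideal.Quotient.mk v.asIdeal with hπ
  have hπ0 : ∀ x : 𝓞 K, π x = 0 ↔ x ∈ v.asIdeal := fun x => Ideal.Quotient.eq_zero_iff_mem
  have hπ1 : ∀ x : 𝓞 K, π x = 1 ↔ x - 1 ∈ v.asIdeal := fun x => by
    rw [← hπ0, map_sub, map_one, sub_eq_zero]
  -- the characteristic
  have hl0 : ((nm v : ℕ) : 𝓞 K ⧸ v.asIdeal) = 0 := by
    have h1 : ((nm v : ℕ) : 𝓞 K) ∈ v.asIdeal := Ideal.absNorm_mem v.asIdeal
    have h2 := (hπ0 _).2 h1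
    rwa [map_natCast] at h2
  haveI hchar : CharP (𝓞 K ⧸ v.asIdeal) (nm v) := by
    obtain ⟨p, hp⟩ := CharP.exists (𝓞 K ⧸ v.asIdeal)
    have h1 : p ∣ nm v := (CharP.cast_eq_zero_iff (𝓞 K ⧸ v.asIdeal) p (nm v)).1 hl0
    rcases (Nat.dvd_prime hl).1 h1 with h2 | h2
    · exact absurd h2 (CharP.char_ne_one (𝓞 K ⧸ v.asIdeal) p)
    · rw [← h2]
      exact hp
  set F : ZMod (nm v) →+* 𝓞 K ⧸ v.asIdeal := ZMod.castHom (dvd_refl (nm v)) _ with hF
  have hFinj : Function.Injective F := F.injective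
  -- the root
  set b' := F b with hb'
  set g : 𝓞 K ⧸ v.asIdeal := (q : 𝓞 K ⧸ v.asIdeal) with hg
  have hFq : F (q : ZMod (nm v)) = g := map_natCast F q
  have hπq : π (q : 𝓞 K) = g := map_natCast π q
  have hord : orderOf g = orderOf (q : ZMod (nm v)) := by
    rw [← hFq]
    exact orderOf_injective (F : ZMod (nm v) →* 𝓞 K ⧸ v.asIdeal) hFinj _
  have hroot : P.eval₂ (Int.castRingHom (𝓞 K ⧸ v.asIdeal)) b' = 0 := by
    have h1 := congrArg F hb
    rw [Polynomial.eval_map, Polynomial.hom_eval₂, map_zero] at h1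
    have h2 : F.comp (Int.castRingHom (ZMod (nm v))) =
        Int.castRingHom (𝓞 K ⧸ v.asIdeal) := RingHom.ext_int _ _
    rwa [h2] at h1
  set g₁ : 𝓞 M →+* 𝓞 K ⧸ v.asIdeal := π.comp (algebraMap (𝓞 M) (𝓞 K)) with hg₁
  have hex : ∃ γ ∈ G, b' = g₁ γ := by
    have h1 := congrArg (Polynomial.eval₂RingHom g₁ b') hG
    rw [map_multiset_prod, Multiset.map_map] at h1
    have h2 : Polynomial.eval₂RingHom g₁ b' (P.map (Int.castRingHom (𝓞 M))) = 0 := by
      rw [Polynomial.coe_eval₂RingHom, Polynomial.eval₂_map]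
      have h3 : g₁.comp (Int.castRingHom (𝓞 M)) =
        Int.castRingHom (𝓞 K ⧸ v.asIdeal) := RingHom.ext_int _ _
      rw [h3]
      exact hroot
    rw [h2] at h1
    have h3 := Multiset.prod_eq_zero_iff.1 h1.symm
    obtain ⟨γ, hγG, hγ0⟩ := Multiset.mem_map.1 h3
    refine ⟨γ, hγG, ?_⟩
    simp only [Function.comp_apply, Polynomial.coe_eval₂RingHom, Polynomial.eval₂_sub,
      Polynomial.eval₂_X, Polynomial.eval₂_C] at hγ0
    exact sub_eq_zero.1 hγ0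
  obtain ⟨γ, hγG, hγb⟩ := hex
  -- the powers of `g`
  have hg0 : g ≠ 0 := by
    rw [← hπq]
    exact fun h => hq ((hπ0 _).1 h)
  have hg1 : g ^ (nm v - 1) = 1 := by
    have h1 := FiniteField.pow_card_sub_one_eq_one g hg0
    rwa [hcard'] at h1
  have hl1 : 0 < nm v - 1 := by
    have := hl.two_le
    omega
  have hrd : r ∣ nm v - 1 := (Dvd.intro _ rfl).trans hn
  have hgr : g ^ ((nm v - 1) / r) = 1 := by
    have hint : IsIntegral ℤ ρ := by
      refine IsIntegral.of_pow (Nat.pos_of_ne_zero hr) ?_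
      rw [hρ]
      have h1 : ((q : ℤ) : K) = (q : K) := by push_cast; rfl
      rw [← h1]
      exact isIntegral_algebraMap (R := ℤ) (x := (q : ℤ))
    set ρ₀ : 𝓞 K := ⟨ρ, hint⟩ with hρ₀
    have h2 : ρ₀ ^ r = (q : 𝓞 K) := by
      apply NumberField.RingOfIntegers.ext
      push_cast
      exact hρ
    have h3 : π ρ₀ ^ r = g := by
      rw [← map_pow, h2, hπq]
    have h4 : π ρ₀ ≠ 0 := by
      intro h0
      rw [h0, zero_pow hr] at h3
      exact hg0 h3.symm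
    have h5 := FiniteField.pow_card_sub_one_eq_one (π ρ₀) h4
    rw [hcard'] at h5
    rw [← h3, ← pow_mul, Nat.mul_div_cancel' hrd]
    exact h5
  have hmain : b' ^ orderOf g ≠ 1 := by
    rcases hγ γ hγG with h1 | h1 | ⟨A, B, s, f, hsS, hfE, hA, hB, hAB⟩
    · rw [hγb, h1, map_zero]
      have h2 : orderOf g ≠ 0 := by
        intro h0
        have h3 := orderOf_dvd_of_pow_eq_one hg1
        rw [h0, zero_dvd_iff] at h3
        omega
      rw [zero_pow h2]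
      exact zero_ne_one
    · refine ordA g b' ((nm v - 1) / r) hgr fun h2 => h1 ?_
      rw [← hπ1, map_pow]
      rw [hγb] at h2
      exact h2
    · refine ordB g b' (nm v - 1) s N E f A B (hS s hsS) ?_ hg1 (fun h2 => ?_) hfE hA hB ?_
      · exact ((Finset.dvd_prod_of_mem _ hsS).trans (Dvd.intro_left r rfl)).trans hn
      · apply hs s hsS
        rw [← hπ1, map_pow, hπq]
        exact h2
      · rw [hγb, ← map_pow, hAB, map_pow, map_natCast]
  intro hcon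
  apply hmain
  rw [hord, hb', ← map_pow, hcon, map_one]

end H13.KU
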