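import Pool.Agent.H63.MA.LBd

/-!
# KU-LSM: from places to primes

As in `TA/ECc.lean` (`cc_aux`). For each prime `l` there are at most `n = [K : ℚ]` places `v` with `l ∈ v`
(`H63.MA.pzb_card_above`; `nm v ∈ v`, `Ideal.absNorm_mem`). If the sum of the `1 / l` over the set in the statement is
`A < ∞`, then `PZ S s ≤ n ∑ l ^ (-s) ≤ n A` for all `s > 1`, against `hC` for `s → 1`.
-/

set_option autoImplicit false

open Polynomial NumberField IsDedekindDomain
open H63.MA (Pl nm PZ Over)

noncomputable section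

namespace H13.KU

theorem lsm {K : Type} [Field K] [NumberField K] (S : Set (Pl K)) (P : ℕ → Prop)
    (hS : ∀ v ∈ S, (nm v).Prime ∧ P (nm v)) (C : ℝ)
    (hC : ∀ s : ℝ, 1 < s → s ≤ 2 → 1 / 2 * Real.log (1 / (s - 1)) - C ≤ PZ S s) :
    ¬ Summable fun l : {l : ℕ // l.Prime ∧ P l} => (1 : ℝ) / (l : ℕ) := by
  classical
  intro hs
  set Q : ℕ → Prop := fun l => l.Prime ∧ P l with hQ
  have hgood : ∀ v ∈ S, Q (nm v) := hS
  set n : ℕ := Module.finrank ℤ (𝓞 K) with hn
  set A : ℝ := ∑' l : {l : ℕ // Q l}, (1 : ℝ) / (l : ℕ) with hA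
  have hA0 : 0 ≤ A := tsum_nonneg fun l => by positivity
  have hfs : ∀ T : Finset ℕ, (∀ l ∈ T, Q l) → ∑ l ∈ T, (1 : ℝ) / (l : ℕ) ≤ A := by
    intro T hT
    have h1 := hs.sum_le_tsum (T.subtype Q) (fun l _ => by positivity)
    rw [Finset.sum_subtype_of_mem (f := fun l : ℕ => (1 : ℝ) / (l : ℕ)) hT] at h1
    exact h1
  have hup : ∀ s : ℝ, 1 < s → PZ S s ≤ n * A := by
    intro s hs1
    unfold PZ
    refine Real.tsum_le_of_sum_le (fun v => Set.indicator_nonneg (fun v _ =>
      Real.rpow_nonneg (Nat.cast_nonneg _) _) v) ?_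
    intro F
    set F' := F.filter (· ∈ S) with hF'
    have e1 : ∑ v ∈ F, S.indicator (fun v => (nm v : ℝ) ^ (-s)) v =
        ∑ v ∈ F', (nm v : ℝ) ^ (-s) := by
      rw [hF', Finset.sum_filter]
      apply Finset.sum_congr rfl
      intro v _
      rw [Set.indicator_apply]
    rw [e1]
    have hmem : ∀ v ∈ F', Q (nm v) := fun v hv => hgood v (Finset.mem_filter.mp hv).2
    calc ∑ v ∈ F', (nm v : ℝ) ^ (-s) ≤ ∑ v ∈ F', (1 : ℝ) / (nm v : ℕ) := by
          apply Finset.sum_le_sum
          intro v hv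
          have hp : (1 : ℝ) ≤ nm v := by exact_mod_cast (hmem v hv).1.one_lt.le
          rw [one_div, ← Real.rpow_neg_one]
          exact Real.rpow_le_rpow_of_exponent_le hp (by linarith)
      _ = ∑ l ∈ F'.image nm, ∑ v ∈ F' with nm v = l, (1 : ℝ) / (nm v : ℕ) := by
          rw [Finset.sum_fiberwise_of_maps_to (fun v hv => Finset.mem_image_of_mem _ hv)]
      _ ≤ ∑ l ∈ F'.image nm, n * ((1 : ℝ) / (l : ℕ)) := by
          apply Finset.sum_le_sum
          intro l hl
          rw [Finset.mem_image] at hl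
          obtain ⟨v0, hv0, hv0l⟩ := hl
          have hlp : l.Prime := by rw [← hv0l]; exact (hmem v0 hv0).1
          have e2 : ∑ v ∈ F' with nm v = l, (1 : ℝ) / (nm v : ℕ) =
              ∑ v ∈ F' with nm v = l, (1 : ℝ) / (l : ℕ) := by
            apply Finset.sum_congr rfl
            intro v hv
            rw [(Finset.mem_filter.mp hv).2]
          rw [e2, Finset.sum_const, nsmul_eq_mul]
          apply mul_le_mul_of_nonneg_right _ (by positivity)
          have := H63.MA.pzb_card_above hlp (F'.filter (fun v => nm v = l)) (by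
            intro v hv
            have h1 := (Finset.mem_filter.mp hv).2
            change (l : 𝓞 K) ∈ v.asIdeal
            rw [← h1]
            exact Ideal.absNorm_mem v.asIdeal)
          exact_mod_cast this
      _ = n * ∑ l ∈ F'.image nm, (1 : ℝ) / (l : ℕ) := by rw [Finset.mul_sum]
      _ ≤ n * A := by
          apply mul_le_mul_of_nonneg_left _ (Nat.cast_nonneg n)
          apply hfs
          intro l hl
          rw [Finset.mem_image] at hl
          obtain ⟨v, hv, rfl⟩ := hl
          exact hmem v hv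
  set D : ℝ := 2 * (|C + n * A| + 1) with hD
  have hD0 : 0 < D := by
    have := abs_nonneg (C + n * A)
    linarith
  have h1 := hC (1 + Real.exp (-D)) (by linarith [Real.exp_pos (-D)]) (by
    have : Real.exp (-D) ≤ 1 := Real.exp_le_one_iff.mpr (by linarith)
    linarith)
  have h3 := hup (1 + Real.exp (-D)) (by linarith [Real.exp_pos (-D)])
  have hlog : Real.log (1 / (1 + Real.exp (-D) - 1)) = D := by
    rw [show (1 + Real.exp (-D) - 1 : ℝ) = Real.exp (-D) by ring, one_div, Real.log_inv,
      Real.log_exp, neg_neg]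
  rw [hlog] at h1
  have h4 := le_abs_self (C + n * A)
  have h5 : 1 / 2 * D - C ≤ n * A := h1.trans h3
  rw [hD] at h5
  linarith

end H13.KU
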