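import Mathlib

/-!
# KU-FIN: `γ q ^ e` (`e ≤ r`) is an `r`-th power in `M` only for finitely many `r`

`γ ∈ 𝓞 M` is not zero and multiplicatively independent of `q` (`hγ`). Let `H ≥ 1` be a bound for the absolute values
`‖φ γ‖` for all embeddings `φ : M →+* ℂ` (finitely many). If `r ≥ 1`, `e ≤ r` and `δ ^ r = γ q ^ e`, then `δ` is integral
(`IsIntegral.of_pow`) and `‖φ δ‖ ^ r = ‖φ γ‖ q ^ e ≤ H ^ r q ^ r`, so `‖φ δ‖ ≤ H q` for all `φ`: `δ` is in a finite set `Δ`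
(`NumberField.Embeddings.finite_of_norm_le`). Suppose the assertion is false. Then there are infinitely many `r` with some
`δ_r ∈ Δ`, so there are `1 ≤ r < r'` with the same `δ` (`Set.infinite_of_not_bddAbove`/pigeonhole:
`Set.Infinite.exists_ne_map_eq_of_mapsTo`): `δ ^ r = γ q ^ e`, `δ ^ r' = γ q ^ e'`. So
`γ ^ r' q ^ (e r') = δ ^ (r r') = γ ^ r q ^ (e' r)`, `γ ^ (r' - r) q ^ (e r') = q ^ (e' r)` (in `𝓞 M`, `γ ≠ 0`). If
`e r' ≤ e' r`: `γ ^ (r' - r) = q ^ (e' r - e r')`, against `hγ` as `r' - r ≠ 0`. If `e r' > e' r`: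
`γ ^ (r' - r) q ^ (e r' - e' r) = 1`, so `q` is a unit of `𝓞 M`, so `1 / q` is integral over `ℤ` and rational: false for
`q ≥ 2` (take `Algebra.norm ℤ`, `q ^ d = ± 1`, or `IsIntegrallyClosed`).
-/

set_option autoImplicit false

open Polynomial NumberField

namespace H13.KU

theorem fin {M : Type} [Field M] [NumberField M] (q : ℕ) (hq : 2 ≤ q) (γ : 𝓞 M) (hγ0 : γ ≠ 0)
    (hγ : ∀ A B : ℕ, γ ^ A = (q : 𝓞 M) ^ B → A = 0) :
    ∃ R0 : ℕ, ∀ r > R0, ∀ e ≤ r, ∀ δ : M, δ ^ r ≠ (γ : M) * (q : M) ^ e := by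
  classical
  have hq1 : (1 : ℝ) ≤ q := by
    have : 1 ≤ q := by omega
    exact_mod_cast this
  -- a bound for the conjugates of `γ`
  obtain ⟨H, hH1, hH⟩ : ∃ H : ℝ, 1 ≤ H ∧ ∀ φ : M →+* ℂ, ‖φ γ‖ ≤ H := by
    refine ⟨1 + ∑ φ : M →+* ℂ, ‖φ γ‖, ?_, ?_⟩
    · have : 0 ≤ ∑ φ : M →+* ℂ, ‖φ γ‖ := Finset.sum_nonneg fun _ _ => norm_nonneg _
      linarith
    · intro φ
      have := Finset.single_le_sum (f := fun φ : M →+* ℂ => ‖φ γ‖) (fun _ _ => norm_nonneg _) (Finset.mem_univ φ)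
      linarith
  have hfin : {x : M | IsIntegral ℤ x ∧ ∀ φ : M →+* ℂ, ‖φ x‖ ≤ H * q}.Finite :=
    NumberField.Embeddings.finite_of_norm_le M ℂ (H * q)
  have hqint : IsIntegral ℤ (q : M) := by
    have h := isIntegral_algebraMap (R := ℤ) (A := M) (x := (q : ℤ))
    simpa using h
  -- the roots are in the finite set
  have hmem : ∀ r : ℕ, 1 ≤ r → ∀ e ≤ r, ∀ δ : M, δ ^ r = (γ : M) * (q : M) ^ e →
      δ ∈ {x : M | IsIntegral ℤ x ∧ ∀ φ : M →+* ℂ, ‖φ x‖ ≤ H * q} := by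
    intro r hr e he δ hδ
    refine ⟨?_, ?_⟩
    · refine IsIntegral.of_pow (n := r) (by omega) ?_
      rw [hδ]
      exact (RingOfIntegers.isIntegral_coe γ).mul (hqint.pow e)
    · intro φ
      have h1 : ‖φ δ‖ ^ r ≤ (H * q) ^ r := by
        rw [← norm_pow, ← map_pow, hδ, map_mul, norm_mul, map_pow, norm_pow, map_natCast, Complex.norm_natCast,
          mul_pow]
        refine mul_le_mul ((hH φ).trans (le_self_pow₀ hH1 (by omega))) (pow_le_pow_right₀ hq1 he) (by positivity) (by positivity)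
      exact le_of_pow_le_pow_left₀ (by omega) (by positivity) h1
  by_contra hcon
  push Not at hcon
  have hinf : {r : ℕ | 1 ≤ r ∧ ∃ e ≤ r, ∃ δ : M, δ ^ r = (γ : M) * (q : M) ^ e}.Infinite := by
    refine Set.infinite_of_not_bddAbove ?_
    rintro ⟨B, hB⟩
    obtain ⟨r, hr, e, he, δ, hδ⟩ := hcon (B + 1)
    have := hB (show r ∈ {r : ℕ | 1 ≤ r ∧ ∃ e ≤ r, ∃ δ : M, δ ^ r = (γ : M) * (q : M) ^ e} from ⟨by omega, e, he, δ, hδ⟩)
    omega
  have hch : ∀ r : ℕ, ∃ δ : M, r ∈ {r : ℕ | 1 ≤ r ∧ ∃ e ≤ r, ∃ δ : M, δ ^ r = (γ : M) * (q : M) ^ e} →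
      ∃ e ≤ r, δ ^ r = (γ : M) * (q : M) ^ e := by
    intro r
    by_cases h : r ∈ {r : ℕ | 1 ≤ r ∧ ∃ e ≤ r, ∃ δ : M, δ ^ r = (γ : M) * (q : M) ^ e}
    · obtain ⟨_, e, he, δ, hδ⟩ := h
      exact ⟨δ, fun _ => ⟨e, he, hδ⟩⟩
    · exact ⟨0, fun h' => absurd h' h⟩
  choose f hf using hch
  obtain ⟨r, hr, r', hr', hne, hff⟩ := hinf.exists_ne_map_eq_of_mapsTo (f := f)
    (t := {x : M | IsIntegral ℤ x ∧ ∀ φ : M →+* ℂ, ‖φ x‖ ≤ H * q}) (by
      intro r hr
      obtain ⟨e, he, h⟩ := hf r hr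
      exact hmem r hr.1 e he _ h) hfin
  -- we may suppose `r < r'`
  have key : ∀ r r' : ℕ, r < r' → ∀ e e' : ℕ, ∀ δ : M, δ ^ r = (γ : M) * (q : M) ^ e → δ ^ r' = (γ : M) * (q : M) ^ e' → False := by
    intro r r' hlt e e' δ h1 h2
    have hγ0' : (γ : M) ≠ 0 := by
      intro h
      apply hγ0
      exact_mod_cast h
    have hq0 : (q : M) ≠ 0 := by
      have : q ≠ 0 := by omega
      exact_mod_cast this
    have h3 : (γ : M) ^ r' * (q : M) ^ (e * r') = (γ : M) ^ r * (q : M) ^ (e' * r) := by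
      calc (γ : M) ^ r' * (q : M) ^ (e * r') = (δ ^ r) ^ r' := by rw [h1, mul_pow, ← pow_mul]
        _ = (δ ^ r') ^ r := by rw [← pow_mul, ← pow_mul, mul_comm]
        _ = (γ : M) ^ r * (q : M) ^ (e' * r) := by rw [h2, mul_pow, ← pow_mul]
    have h4 : (γ : M) ^ (r' - r) * (q : M) ^ (e * r') = (q : M) ^ (e' * r) := by
      have h5 : (γ : M) ^ r * ((γ : M) ^ (r' - r) * (q : M) ^ (e * r')) = (γ : M) ^ r * (q : M) ^ (e' * r) := by
        rw [← h3, ← mul_assoc, ← pow_add]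
        congr 2
        omega
      exact mul_left_cancel₀ (pow_ne_zero _ hγ0') h5
    rcases le_or_gt (e * r') (e' * r) with h5 | h5
    · have h6 : (γ : M) ^ (r' - r) = (q : M) ^ (e' * r - e * r') := by
        have h7 : (γ : M) ^ (r' - r) * (q : M) ^ (e * r') = (q : M) ^ (e' * r - e * r') * (q : M) ^ (e * r') := by
          rw [h4, ← pow_add]
          congr 1
          omega
        exact mul_right_cancel₀ (pow_ne_zero _ hq0) h7
      have h8 : γ ^ (r' - r) = (q : 𝓞 M) ^ (e' * r - e * r') := by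
        apply RingOfIntegers.coe_injective
        push_cast
        exact h6
      have := hγ _ _ h8
      omega
    · have h6 : (γ : M) ^ (r' - r) * (q : M) ^ (e * r' - e' * r) = 1 := by
        have h7 : ((γ : M) ^ (r' - r) * (q : M) ^ (e * r' - e' * r)) * (q : M) ^ (e' * r) = 1 * (q : M) ^ (e' * r) := by
          rw [mul_assoc, ← pow_add, one_mul, ← h4]
          congr 2
          omega
        exact mul_right_cancel₀ (pow_ne_zero _ hq0) h7
      have h8 : γ ^ (r' - r) * (q : 𝓞 M) ^ (e * r' - e' * r) = 1 := by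
        apply RingOfIntegers.coe_injective
        push_cast
        exact h6
      have h9 : IsUnit (q : 𝓞 M) := by
        have h10 : IsUnit ((q : 𝓞 M) ^ (e * r' - e' * r)) := IsUnit.of_mul_eq_one_right _ h8
        exact (isUnit_pow_iff (by omega)).1 h10
      have h11 := h9.map (Algebra.norm ℤ)
      have h12 : Algebra.norm ℤ (q : 𝓞 M) = (q : ℤ) ^ Module.finrank ℤ (𝓞 M) := by
        have := Algebra.norm_algebraMap (S := 𝓞 M) (q : ℤ)
        simpa using this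
      rw [h12] at h11
      have h13 : Module.finrank ℤ (𝓞 M) ≠ 0 := by
        rw [RingOfIntegers.rank]
        exact Module.finrank_pos.ne'
      have h14 := (isUnit_pow_iff h13).1 h11
      rw [Int.isUnit_iff] at h14
      omega
  obtain ⟨e, _, h1⟩ := hf r hr
  obtain ⟨e', _, h2⟩ := hf r' hr'
  rcases lt_or_gt_of_ne hne with h | h
  · rw [← hff] at h2
    exact key r r' h e e' _ h1 h2
  · rw [← hff] at h2
    exact key r' r h e' e _ h2 h1

end H13.KU
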