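import Pool.Agent.H63.MA.KumA

/-!
# KU-KTW: adjoining an `r`-th root

If `q` is an `r`-th power in `K`, take `L = K` (`e = 0`). Otherwise `H63.MA.kum_exists` (with `p = r`, `c = q` as a unit)
gives `L` with `H : Kum r K ζ c L`: `H.γ ^ r = q`, `H.σ H.γ = ζ H.γ`, `[L : K] = r`; `ρ = H.γ`. Let `y ∈ L`,
`y ^ r = x ∈ K`. If `x = 0`: `e = 0`, `c = 0`. Otherwise `H.σ y / y` is an `r`-th root of unity, `H.σ y = ζ ^ e y` with
`e < r` (`IsPrimitiveRoot.eq_pow_of_pow_eq_one` for the image of `ζ`), `y / ρ ^ e` is fixed by `H.σ`, so it is in `K`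
(`H63.MA.kum_fixed`), say `c`: `x = y ^ r = q ^ e c ^ r`. Last part: `y ^ m = x ∈ K`; norm from `L` to `K`
(`Algebra.norm_algebraMap`): `N(y) ^ m = x ^ r`; `m` prime to `r`: for `x ≠ 0` write `u r = 1 + v m` with `u, v ∈ ℕ`
(or integer exponents), `x = (N(y) ^ u / x ^ v) ^ m`; for `x = 0` take `y = 0` (`m ≠ 0`; if `m = 0`, then `r = 1` is
excluded since `m` is prime to `r`).
-/

set_option autoImplicit false

open Polynomial NumberField

namespace H13.KU

theorem ktw {K : Type} [Field K] [NumberField K] (r : ℕ) (hr : r.Prime) (ζ : K)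
    (hζ : IsPrimitiveRoot ζ r) (q : K) (hq : q ≠ 0) :
    ∃ (L : Type) (_ : Field L) (_ : NumberField L) (_ : Algebra K L) (ρ : L),
      ρ ^ r = algebraMap K L q ∧
      (∀ x : K, (∃ y : L, y ^ r = algebraMap K L x) → ∃ (e : ℕ) (c : K), e < r ∧
        x = q ^ e * c ^ r) ∧
      ∀ m : ℕ, m.Coprime r → ∀ x : K, (∃ y : L, y ^ m = algebraMap K L x) → ∃ y : K, y ^ m = x := by
  classical
  by_cases hpow : ∃ ρ : K, ρ ^ r = q
  · obtain ⟨ρ, hρ⟩ := hpow
    refine ⟨K, inferInstance, inferInstance, Algebra.id K, ρ, ?_, ?_, ?_⟩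
    · exact hρ
    · rintro x ⟨y, hy⟩
      exact ⟨0, y, hr.pos, by rw [pow_zero, one_mul]; exact hy.symm⟩
    · rintro m _ x ⟨y, hy⟩
      exact ⟨y, hy⟩
  · obtain ⟨c, hc⟩ : ∃ c : Kˣ, (c : K) = q := ⟨Units.mk0 q hq, rfl⟩
    have hnp : ¬ H63.MA.IsPow r c := by
      rintro ⟨y, hy⟩
      refine hpow ⟨(y : K), ?_⟩
      rw [← hc, ← hy]
      simp
    obtain ⟨L, i1, i2, i3, ⟨H⟩⟩ := H63.MA.kum_exists hr hζ hnp
    have hinj : Function.Injective (algebraMap K L) := (algebraMap K L).injective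
    refine ⟨L, i1, i2, i3, (H.γ : L), ?_, ?_, ?_⟩
    · rw [H.hγ, hc]
    · rintro x ⟨y, hy⟩
      by_cases hx : x = 0
      · exact ⟨0, 0, hr.pos, by rw [hx, zero_pow hr.ne_zero, mul_zero]⟩
      have hy0 : y ≠ 0 := by
        rintro rfl
        rw [zero_pow hr.ne_zero] at hy
        exact hx (hinj (by rw [← hy, map_zero]))
      have hζL : IsPrimitiveRoot (algebraMap K L ζ) r := hζ.map_of_injective hinj
      have h1 : (H.σ y / y) ^ r = 1 := by
        rw [div_pow, ← map_pow, hy, AlgEquiv.commutes]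
        exact div_self fun h => hx (hinj (by rw [h, map_zero]))
      haveI : NeZero r := ⟨hr.ne_zero⟩
      obtain ⟨e, he, he2⟩ := hζL.eq_pow_of_pow_eq_one h1
      have hσy : H.σ y = (algebraMap K L ζ) ^ e * y := by
        rw [he2, div_mul_cancel₀ _ hy0]
      have hγ0 : (H.γ : L) ≠ 0 := H.γ.ne_zero
      have hζ0 : algebraMap K L ζ ≠ 0 := hζL.ne_zero hr.ne_zero
      obtain ⟨d, hd⟩ := H63.MA.kum_fixed hr hζ H (y / (H.γ : L) ^ e) (by
        rw [map_div₀, map_pow, H.hσ, hσy, mul_pow]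
        have h3 : (H.γ : L) ^ e ≠ 0 := pow_ne_zero _ hγ0
        have h4 : (algebraMap K L ζ) ^ e ≠ 0 := pow_ne_zero _ hζ0
        field_simp)
      refine ⟨e, d, he, hinj ?_⟩
      rw [← hy, map_mul, map_pow, map_pow, hd, div_pow, ← hc, ← H.hγ]
      have h3 : (H.γ : L) ≠ 0 := hγ0
      field_simp
      ring
    · rintro m hm x ⟨y, hy⟩
      have hm0 : m ≠ 0 := by
        rintro rfl
        rw [Nat.coprime_zero_left] at hm
        exact hr.one_lt.ne' hm
      by_cases hx : x = 0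
      · exact ⟨0, by rw [hx, zero_pow hm0]⟩
      have h1 : (Algebra.norm K y) ^ m = x ^ r := by
        rw [← map_pow, hy, Algebra.norm_algebraMap, H.deg]
      by_cases hm1 : m = 1
      · exact ⟨x, by rw [hm1, pow_one]⟩
      obtain ⟨u, hu⟩ := Nat.exists_mul_mod_eq_one_of_coprime hm.symm (by omega : 1 < m)
      obtain ⟨v, hv⟩ : ∃ v, v = (r * u) / m := ⟨_, rfl⟩
      have h2 : r * u = 1 + v * m := by
        have h3 := Nat.div_add_mod (r * u) m
        have h4 := mul_comm m ((r * u) / m)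
        rw [hv]
        omega
      refine ⟨(Algebra.norm K y) ^ u / x ^ v, ?_⟩
      have h4 : x ^ (r * u) = ((Algebra.norm K y) ^ u) ^ m := by
        rw [pow_mul, ← h1]
        ring
      rw [h2, pow_add, pow_one, pow_mul] at h4
      rw [div_pow, ← h4]
      have h5 : (x ^ v) ^ m ≠ 0 := pow_ne_zero _ (pow_ne_zero _ hx)
      field_simp

end H13.KU
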