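import Mathlib

/-!
# KU-SIG: an automorphism which moves the roots of unity of order `s ^ e`

`ζ₁ = ζ ^ (R / s ^ e)` is a primitive root of unity of order `s ^ e` in `K` (`IsPrimitiveRoot.pow`). If all
`σ ∈ Gal(K/M)` fix `ζ₁`, then `ζ₁ ∈ M` (`K/M` is Galois, `IsCyclotomicExtension.isGalois`), and `M` contains a primitive root
of unity of order `s ^ e`, of degree `φ(s ^ e)` over `ℚ` (its minimal polynomial over `ℤ` or `ℚ` is cyclotomic:
`Polynomial.cyclotomic_eq_minpoly_rat`, `natDegree_cyclotomic`, `minpoly.natDegree_le`), so `φ(s ^ e) ≤ [M : ℚ]`: against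
`hφ`. So there is `σ` with `σ ζ₁ ≠ ζ₁`. `σ ζ = ζ ^ k` with `k ≥ 1` (`σ ζ` is a power of `ζ`; add `R` to the exponent).
If `s ^ e ∣ k - 1`, then `σ ζ₁ = ζ₁ ^ k = ζ₁ ^ (k - 1) ζ₁ = ζ₁`: contradiction.
-/

set_option autoImplicit false

open Polynomial NumberField

namespace H13.KU

private theorem pow_of {M K : Type} [Field M] [Field K] [Algebra M K] (R : ℕ) [NeZero R] (ζ : K)
    (hζ : IsPrimitiveRoot ζ R) (σ : K ≃ₐ[M] K) : ∃ k : ℕ, 1 ≤ k ∧ σ ζ = ζ ^ k := by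
  have h1 : (σ ζ) ^ R = 1 := by
    rw [← map_pow, hζ.pow_eq_one, map_one]
  obtain ⟨a, _, ha⟩ := hζ.eq_pow_of_pow_eq_one h1
  refine ⟨a + R, ?_, ?_⟩
  · have := NeZero.pos R
    omega
  · rw [pow_add, hζ.pow_eq_one, mul_one, ha]

theorem sig {M K : Type} [Field M] [NumberField M] [Field K] [NumberField K] [Algebra M K] (R : ℕ)
    [NeZero R] [IsCyclotomicExtension {R} M K] (ζ : K) (hζ : IsPrimitiveRoot ζ R) (s e : ℕ)
    (hs : s.Prime) (he : s ^ e ∣ R) (hφ : Module.finrank ℚ M < (s ^ e).totient) :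
    ∃ (σ : K ≃ₐ[M] K) (k : ℕ), 1 ≤ k ∧ σ ζ = ζ ^ k ∧ ¬ s ^ e ∣ k - 1 := by
  by_contra hcon
  push Not at hcon
  have hgal : IsGalois M K := IsCyclotomicExtension.isGalois {R} M K
  obtain ⟨r, hr⟩ := he
  have hζ1 : IsPrimitiveRoot (ζ ^ r) (s ^ e) := hζ.pow (NeZero.pos R) (by rw [hr, mul_comm])
  have hfix : ∀ σ : K ≃ₐ[M] K, σ (ζ ^ r) = ζ ^ r := by
    intro σ
    obtain ⟨k, hk, hσ⟩ := pow_of R ζ hζ σ
    obtain ⟨t, ht⟩ := hcon σ k hk hσ
    have h1 : ζ ^ k = (ζ ^ s ^ e) ^ t * ζ := by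
      rw [← pow_mul, ← ht, ← pow_succ]
      congr 1
      omega
    rw [map_pow, hσ, h1, mul_pow]
    have h2 : ((ζ ^ s ^ e) ^ t) ^ r = 1 := by
      calc ((ζ ^ s ^ e) ^ t) ^ r = (ζ ^ (s ^ e * r)) ^ t := by
            rw [← pow_mul, ← pow_mul, ← pow_mul]
            congr 1
            ring
        _ = 1 := by rw [← hr, hζ.pow_eq_one, one_pow]
    rw [h2, one_mul]
  obtain ⟨c, hc⟩ := (IsGalois.mem_bot_iff_fixed (F := M) (E := K) (ζ ^ r)).2 hfix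
  have hc' : algebraMap M K c = ζ ^ r := hc
  have hcp : IsPrimitiveRoot c (s ^ e) := by
    rw [← hc'] at hζ1
    exact hζ1.of_map_of_injective (algebraMap M K).injective
  have hpos : 0 < s ^ e := pow_pos hs.pos e
  have h3 : minpoly ℚ c = cyclotomic (s ^ e) ℚ := (cyclotomic_eq_minpoly_rat hcp hpos).symm
  have h4 := minpoly.natDegree_le (A := ℚ) c
  rw [h3, natDegree_cyclotomic] at h4
  omega

end H13.KU
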