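import Pool.Agent.H13.KU.Tri
import Pool.Agent.H13.KU.Sig

/-!
# KU-PWB: bound for the `i` such that `q` is an `s ^ i`-th power in `M(ζ)`

`sig` gives `σ`, `k` with `s ^ e ∤ k - 1` (in particular `k - 1 ≠ 0` and `e ≥ 1`), `tri` with `m = s ^ i`, `x = q` gives
`q ^ (k - 1) = c ^ (s ^ i)` with `c ∈ M`. Norms to `ℚ` (`Algebra.norm ℚ`, `Algebra.norm_algebraMap`), `d = [M : ℚ]`:
`q ^ ((k - 1) d) = N(c) ^ (s ^ i)`. Let `p` be a prime factor of `q` (`q ≥ 2`), `padicValRat`: `a := padicValNat p q`,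
`1 ≤ a ≤ q` (`p ^ a ≤ q`, `a < p ^ a`), and `(k - 1) d a = s ^ i * padicValRat p (N c)`, so `s ^ i ∣ (k - 1) d a` in `ℕ`.
As `s ^ e ∤ k - 1`: the exponent of `s` in `k - 1` is less than `e`; the exponent of `s` in `d a` is `v` with
`s ^ v ≤ d a ≤ q d`. So `i ≤ (e - 1) + v` and `s ^ i ≤ s ^ e * (q d)`. (`Nat.factorization` or `padicValNat s`; all
numbers are positive.)
-/

set_option autoImplicit false

open Polynomial NumberField

namespace H13.KU

theorem pwB {M K : Type} [Field M] [NumberField M] [Field K] [NumberField K] [Algebra M K] (R : ℕ)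
    [NeZero R] [IsCyclotomicExtension {R} M K] (ζ : K) (hζ : IsPrimitiveRoot ζ R) (s e i : ℕ)
    (hs : s.Prime) (he : s ^ e ∣ R) (hφ : Module.finrank ℚ M < (s ^ e).totient) (hi : s ^ i ∣ R)
    (q : ℕ) (hq : 2 ≤ q) (β : K) (hβ : β ^ s ^ i = (q : K)) :
    s ^ i ≤ q * Module.finrank ℚ M * s ^ e := by
  obtain ⟨σ, k, hk, hσ, hdk⟩ := sig (M := M) R ζ hζ s e hs he hφ
  have hq0 : (q : M) ≠ 0 := by
    have h1 : q ≠ 0 := by omega
    exact_mod_cast h1
  obtain ⟨c, hc⟩ := tri (M := M) R ζ hζ (s ^ i) hi (q : M) hq0 β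
    (by rw [hβ, map_natCast]) σ k hk hσ
  set d := Module.finrank ℚ M with hd
  have hd0 : 0 < d := Module.finrank_pos
  have h1 : ((q : ℚ) ^ (k - 1)) ^ d = (Algebra.norm ℚ c) ^ (s ^ i) := by
    have h2 := congrArg (Algebra.norm ℚ) hc
    rw [map_pow, map_pow] at h2
    rw [← h2]
    have h3 : (q : M) = algebraMap ℚ M (q : ℚ) := by rw [map_natCast]
    rw [h3, Algebra.norm_algebraMap, ← pow_mul, ← pow_mul, mul_comm]
  set y : ℚ := Algebra.norm ℚ c with hy
  have hs0 : s ^ i ≠ 0 := pow_ne_zero _ hs.ne_zero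
  -- the `p`-adic values
  have hp : q.minFac.Prime := Nat.minFac_prime (by omega)
  haveI : Fact q.minFac.Prime := ⟨hp⟩
  set p := q.minFac with hpdef
  set a := padicValNat p q with ha
  have ha1 : 1 ≤ a := one_le_padicValNat_of_dvd (by omega) (Nat.minFac_dvd q)
  have haq : a ≤ q := by
    have h2 : p ^ a ∣ q := pow_padicValNat_dvd
    have h3 : p ^ a ≤ q := Nat.le_of_dvd (by omega) h2
    have h4 : a < p ^ a := Nat.lt_pow_self hp.one_lt
    omega
  have hdiv : s ^ i ∣ (k - 1) * (d * a) := by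
    have h2 := congrArg (padicValRat p) h1
    have ha' : padicValRat p (q : ℚ) = (a : ℤ) := padicValRat.of_nat
    rw [← pow_mul, padicValRat.pow, padicValRat.pow, ha', Nat.cast_mul] at h2
    have h3 : ((s ^ i : ℕ) : ℤ) ∣ (((k - 1) * (d * a) : ℕ) : ℤ) := by
      refine ⟨padicValRat p y, ?_⟩
      rw [← h2, Nat.cast_mul, Nat.cast_mul]
      ring
    exact_mod_cast h3
  -- the exponent of `s`
  have hk1 : k - 1 ≠ 0 := by
    intro h0
    rw [h0] at hdk
    exact hdk (dvd_zero _)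
  obtain ⟨u, t, ht, hkt⟩ := Nat.exists_eq_pow_mul_and_not_dvd hk1 s hs.one_lt.ne'
  have hue : u < e := by
    by_contra hcon
    apply hdk
    rw [hkt]
    exact (pow_dvd_pow s (not_lt.1 hcon)).mul_right t
  have hcop : Nat.Coprime (s ^ i) t := Nat.Coprime.pow_left _ ((hs.coprime_iff_not_dvd).2 ht)
  have h5 : s ^ i ∣ s ^ u * (d * a) := by
    rw [hkt] at hdiv
    have h6 : s ^ i ∣ t * (s ^ u * (d * a)) := by
      refine dvd_trans hdiv (dvd_of_eq ?_)
      ring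
    exact hcop.dvd_of_dvd_mul_left h6
  have h6 : s ^ i ≤ s ^ u * (d * a) :=
    Nat.le_of_dvd (Nat.mul_pos (pow_pos hs.pos u) (Nat.mul_pos hd0 (by omega))) h5
  have h7 : s ^ u ≤ s ^ e := Nat.pow_le_pow_right hs.pos hue.le
  calc s ^ i ≤ s ^ u * (d * a) := h6
    _ ≤ s ^ e * (d * q) := Nat.mul_le_mul h7 (Nat.mul_le_mul le_rfl haq)
    _ = q * d * s ^ e := by ring

end H13.KU
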