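import Mathlib

/-!
# KU-RTS: the order of `q` modulo `s ^ N`-th powers

`j = s ^ u' j'` with `s ∤ j'` (`Nat.exists_eq_pow_mul_and_not_dvd`). If `u' ≥ N`: take `u = N`, `z = q`. Otherwise
`u = u' < N`. `y ≠ 0`. `j'` is prime to `s ^ N`: `a j' = 1 + b s ^ N` with `a, b ∈ ℕ`, so
`q ^ (s ^ u) = q ^ (s ^ u a j') / q ^ (s ^ u b s ^ N) = (y ^ a / q ^ (s ^ u b)) ^ (s ^ N) = y₁ ^ (s ^ N)`. So
`ε = q / y₁ ^ (s ^ (N - u))` has `ε ^ (s ^ u) = 1`. `ξ₁ = ξ ^ (s ^ (N - u))` is a primitive root of unity of order `s ^ u`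
(`IsPrimitiveRoot.pow`), so `ε = ξ₁ ^ t = (ξ ^ t) ^ (s ^ (N - u))` (`IsPrimitiveRoot.eq_pow_of_pow_eq_one`), and
`q = (ξ ^ t y₁) ^ (s ^ (N - u))`.
-/

set_option autoImplicit false

open Polynomial

namespace H13.KU

theorem rts {K : Type} [Field K] (s N : ℕ) (hs : s.Prime) (ξ : K) (hξ : IsPrimitiveRoot ξ (s ^ N))
    (q : K) (hq : q ≠ 0) (j : ℕ) (hj : j ≠ 0) (y : K) (hy : q ^ j = y ^ s ^ N) :
    ∃ u ≤ N, s ^ u ∣ j ∧ ∃ z : K, z ^ s ^ (N - u) = q := by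
  obtain ⟨u, j', hj', hjj⟩ := Nat.exists_eq_pow_mul_and_not_dvd hj s hs.ne_one
  rcases le_or_gt N u with hu | hu
  · refine ⟨N, le_rfl, ?_, q, ?_⟩
    · rw [hjj]
      exact (pow_dvd_pow s hu).mul_right j'
    · rw [Nat.sub_self, pow_zero, pow_one]
  · refine ⟨u, hu.le, ⟨j', hjj⟩, ?_⟩
    have hy0 : y ≠ 0 := by
      rintro rfl
      rw [zero_pow (pow_ne_zero _ hs.ne_zero)] at hy
      exact hq (pow_eq_zero_iff hj |>.1 hy)
    have hcop : Nat.Coprime j' (s ^ N) := Nat.Coprime.pow_right N ((Nat.Prime.coprime_iff_not_dvd hs).2 hj').symm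
    -- `a j' = 1 + b s ^ N`
    obtain ⟨a, b, hab⟩ : ∃ a b : ℕ, a * j' = 1 + b * s ^ N := by
      rcases Nat.eq_zero_or_pos j' with h0 | h0
      · rw [h0] at hj'
        exact absurd (dvd_zero s) hj'
      · have hN1 : 1 < s ^ N := Nat.one_lt_pow (by omega) hs.one_lt
        obtain ⟨a, ha⟩ := Nat.exists_mul_mod_eq_one_of_coprime hcop hN1
        refine ⟨a, j' * a / s ^ N, ?_⟩
        have h1 := Nat.div_add_mod (j' * a) (s ^ N)
        rw [ha.2] at h1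
        rw [mul_comm a j', mul_comm (j' * a / s ^ N)]
        linarith
    obtain ⟨y1, hy1⟩ : ∃ y1 : K, y1 = y ^ a / q ^ (s ^ u * b) := ⟨_, rfl⟩
    have hq1 : q ^ (s ^ u) = y1 ^ (s ^ N) := by
      have h2 : q ^ (s ^ u * (b * s ^ N)) ≠ 0 := pow_ne_zero _ hq
      rw [hy1, div_pow, ← pow_mul, ← pow_mul, eq_div_iff (pow_ne_zero _ hq)]
      calc q ^ s ^ u * q ^ (s ^ u * b * s ^ N) = q ^ (s ^ u * (a * j')) := by
            rw [← pow_add, hab]
            congr 1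
            ring
        _ = (q ^ j) ^ a := by
            rw [← pow_mul, hjj]
            congr 1
            ring
        _ = y ^ (a * s ^ N) := by
            rw [hy, ← pow_mul]
            congr 1
            ring
    have hy10 : y1 ≠ 0 := by
      rw [hy1]
      exact div_ne_zero (pow_ne_zero _ hy0) (pow_ne_zero _ hq)
    obtain ⟨ε, hε⟩ : ∃ ε : K, ε = q / y1 ^ (s ^ (N - u)) := ⟨_, rfl⟩
    have hsplit : s ^ (N - u) * s ^ u = s ^ N := by
      rw [← pow_add]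
      congr 1
      omega
    have hε1 : ε ^ (s ^ u) = 1 := by
      rw [hε, div_pow, ← pow_mul, hsplit, hq1, div_self (pow_ne_zero _ hy10)]
    have hξ1 : IsPrimitiveRoot (ξ ^ (s ^ (N - u))) (s ^ u) := hξ.pow (pow_pos hs.pos N) hsplit.symm
    have : NeZero (s ^ u) := ⟨pow_ne_zero _ hs.ne_zero⟩
    obtain ⟨t, _, ht⟩ := hξ1.eq_pow_of_pow_eq_one hε1
    refine ⟨ξ ^ t * y1, ?_⟩
    rw [mul_pow, ← pow_mul, mul_comm t, pow_mul, ht, hε, div_mul_cancel₀ _ (pow_ne_zero _ hy10)]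

end H13.KU
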