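import Pool.Agent.H13.KU.PwA
import Pool.Agent.H13.KU.PwB
import Pool.Agent.H13.KU.Fin
import Pool.Agent.H13.KU.Ktw
import Pool.Agent.H13.KU.Rts

/-!
# KU-FLD: the field

Choice of the parameters. `d = [M : ℚ]`. For each `s ∈ S` there is `e_s` with `φ(s ^ e_s) > d` (`Nat.totient_prime_pow`; e.g.
`φ(s ^ e) ≥ 2 ^ (e - 2)` or `s ^ e ≤ 2 φ(s ^ e)`); let `e` be the same for all `s ∈ S` (a large one works for all `s`,
`φ(s ^ e) ≥ s ^ (e-1) ≥ 2 ^ (e - 1) > d` for `e = d + 1`). `r` a prime larger than `D`, `d + 1`, all `R0(γ)`, `γ ∈ Γ` (`fin`)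
and all elements of `S`. `N` with `2 ^ N ≥ D q d s ^ e` for all `s ∈ S`, `N ≥ e`. `R = r ∏_(s ∈ S) s ^ (N + E)`,
`K₁ = CyclotomicField R M`, with `ζ₁ = IsCyclotomicExtension.zeta R M K₁` (number field:
`IsCyclotomicExtension.numberField`), `K = L` from `ktw` for `K₁`, `r`, the root `ζ₁ ^ (R / r)` and `q`.
`Algebra M K` as the composition. `ζ = ` image of `ζ₁`.

(1) `γ ∈ Γ` is not an `r`-th power in `K`: if `γ = y ^ r`, then `γ = q ^ e' c ^ r` with `c ∈ K₁`, `e' < r` (`ktw`), so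
`(c q) ^ r = γ q ^ (r - e')` and by `pwA` `γ q ^ (r - e') = δ ^ r`, `δ ∈ M`, against `fin` as `r > R0(γ)`.

(2) Let `s ∈ S`, `j ≠ 0` and `q ^ j = y ^ (s ^ N)`, `y ∈ K`. `rts` (with `ξ = ζ ^ (R / s ^ N)`): `u ≤ N`, `s ^ u ∣ j`,
`q = z ^ (s ^ (N - u))`, `z ∈ K`; `s ≠ r`, so by the last part of `ktw` `q = z' ^ (s ^ (N - u))` with `z' ∈ K₁`, so by `pwB`
`s ^ (N - u) ≤ q d s ^ e` and `D q d s ^ e ≤ s ^ N ≤ s ^ u q d s ^ e ≤ j q d s ^ e`, `D ≤ j`.
-/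

set_option autoImplicit false

open Polynomial NumberField

namespace H13.KU

private theorem tot_big {s d : ℕ} (hs : s.Prime) : d < (s ^ (d + 1)).totient := by
  rw [Nat.totient_prime_pow hs (by omega), Nat.add_sub_cancel]
  have h1 : d < 2 ^ d := Nat.lt_two_pow_self
  have h2 : 2 ^ d ≤ s ^ d := Nat.pow_le_pow_left hs.two_le d
  have h3 : 1 ≤ s - 1 := by
    have := hs.two_le
    omega
  calc d < s ^ d := lt_of_lt_of_le h1 h2
    _ = s ^ d * 1 := (mul_one _).symm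
    _ ≤ s ^ d * (s - 1) := Nat.mul_le_mul_left _ h3

theorem fld (M : Type) [Field M] [NumberField M] (q : ℕ) (hq : 2 ≤ q) (Γ : Finset (𝓞 M))
    (hΓ : ∀ γ ∈ Γ, γ ≠ 0 ∧ ∀ A B : ℕ, γ ^ A = (q : 𝓞 M) ^ B → A = 0) (S : Finset ℕ)
    (hS : ∀ s ∈ S, s.Prime) (E D : ℕ) :
    ∃ (r N : ℕ) (K : Type) (_ : Field K) (_ : NumberField K) (_ : Algebra M K) (ζ ρ : K),
      r.Prime ∧ D < r ∧ IsPrimitiveRoot ζ (r * ∏ s ∈ S, s ^ (N + E)) ∧ ρ ^ r = (q : K) ∧
      (∀ γ ∈ Γ, ∀ y : K, y ^ r ≠ algebraMap M K (γ : M)) ∧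
      ∀ s ∈ S, ∀ j : ℕ, j ≠ 0 → (∃ y : K, (q : K) ^ j = y ^ s ^ N) → D ≤ j := by
  classical
  obtain ⟨d, hd⟩ : ∃ d, d = Module.finrank ℚ M := ⟨_, rfl⟩
  have hd1 : 1 ≤ d := by
    rw [hd]
    exact Module.finrank_pos
  have hR0 : ∀ γ : 𝓞 M, ∃ R0 : ℕ, γ ∈ Γ → ∀ r > R0, ∀ e ≤ r, ∀ δ : M, δ ^ r ≠ (γ : M) * (q : M) ^ e := by
    intro γ
    by_cases h : γ ∈ Γ
    · obtain ⟨R0, h1⟩ := fin q hq γ (hΓ γ h).1 (hΓ γ h).2
      exact ⟨R0, fun _ => h1⟩
    · exact ⟨0, fun h' => absurd h' h⟩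
  choose R0 hR0 using hR0
  obtain ⟨r, hrbig, hr⟩ := Nat.exists_infinite_primes (D + d + 2 + ∑ γ ∈ Γ, R0 γ + ∑ s ∈ S, s)
  obtain ⟨N, hN⟩ : ∃ N, N = D * (q * d * ∑ s ∈ S, s ^ (d + 1)) + (d + 1) := ⟨_, rfl⟩
  obtain ⟨P, hP⟩ : ∃ P, P = ∏ s ∈ S, s ^ (N + E) := ⟨_, rfl⟩
  have hP0 : P ≠ 0 := by
    rw [hP, Finset.prod_ne_zero_iff]
    exact fun s hs => pow_ne_zero _ (hS s hs).ne_zero
  obtain ⟨R, hR⟩ : ∃ R, R = r * P := ⟨_, rfl⟩
  have hRne : R ≠ 0 := by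
    rw [hR]
    exact mul_ne_zero hr.ne_zero hP0
  haveI : NeZero R := ⟨hRne⟩
  haveI hnf : NumberField (CyclotomicField R M) := IsCyclotomicExtension.numberField {R} M (CyclotomicField R M)
  obtain ⟨ζ₁, hζ₁⟩ : ∃ ζ₁ : CyclotomicField R M, IsPrimitiveRoot ζ₁ R :=
    ⟨_, IsCyclotomicExtension.zeta_spec R M (CyclotomicField R M)⟩
  have hq0 : (q : CyclotomicField R M) ≠ 0 := by
    have : q ≠ 0 := by omega
    exact_mod_cast this
  have hζr : IsPrimitiveRoot (ζ₁ ^ P) r := hζ₁.pow (NeZero.pos R) (by rw [hR, mul_comm])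
  obtain ⟨L, _, _, _, ρ, hρ, h2, h3⟩ := ktw r hr (ζ₁ ^ P) hζr (q : CyclotomicField R M) hq0
  letI algML : Algebra M L := ((algebraMap (CyclotomicField R M) L).comp (algebraMap M (CyclotomicField R M))).toAlgebra
  have halg : ∀ x : M, algebraMap M L x = algebraMap (CyclotomicField R M) L (algebraMap M (CyclotomicField R M) x) :=
    fun _ => rfl
  have hqL : (q : L) ≠ 0 := by
    have : q ≠ 0 := by omega
    exact_mod_cast this
  have hζL : IsPrimitiveRoot (algebraMap (CyclotomicField R M) L ζ₁) R :=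
    hζ₁.map_of_injective (algebraMap (CyclotomicField R M) L).injective
  have hsR : ∀ s ∈ S, ∀ i ≤ N, s ^ i ∣ R := by
    intro s hs i hi
    rw [hR, hP]
    exact ((pow_dvd_pow s (by omega : i ≤ N + E)).trans (Finset.dvd_prod_of_mem (fun s => s ^ (N + E)) hs)).mul_left r
  refine ⟨r, N, L, inferInstance, inferInstance, algML, algebraMap (CyclotomicField R M) L ζ₁, ρ, hr, by omega, ?_, ?_, ?_, ?_⟩
  · rw [← hP, ← hR]
    exact hζL
  · rw [hρ, map_natCast]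
  · intro γ hγ y hy
    rw [halg] at hy
    obtain ⟨e', c, he', hc⟩ := h2 (algebraMap M (CyclotomicField R M) γ) ⟨y, hy⟩
    have hγ0 : (γ : M) ≠ 0 := by
      intro h
      apply (hΓ γ hγ).1
      exact_mod_cast h
    have hqM : (q : M) ≠ 0 := by
      have : q ≠ 0 := by omega
      exact_mod_cast this
    have hβ : ((q : CyclotomicField R M) * c) ^ r = algebraMap M (CyclotomicField R M) ((γ : M) * (q : M) ^ (r - e')) := by
      rw [map_mul, map_pow, map_natCast, hc, mul_pow]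
      have h4 : (q : CyclotomicField R M) ^ r = (q : CyclotomicField R M) ^ e' * (q : CyclotomicField R M) ^ (r - e') := by
        rw [← pow_add]
        congr 1
        omega
      rw [h4]
      ring
    obtain ⟨δ, hδ⟩ := pwA R ζ₁ hζ₁ r hr (by rw [hR]; exact dvd_mul_right r P) (by rw [← hd]; omega)
      ((γ : M) * (q : M) ^ (r - e')) (mul_ne_zero hγ0 (pow_ne_zero _ hqM)) _ hβ
    have h5 : R0 γ ≤ ∑ γ ∈ Γ, R0 γ := Finset.single_le_sum (f := R0) (fun _ _ => Nat.zero_le _) hγ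
    exact hR0 γ hγ r (by omega) (r - e') (Nat.sub_le _ _) δ hδ
  · rintro s hs j hj ⟨y, hy⟩
    have hsp := hS s hs
    have hsN := hsR s hs N le_rfl
    obtain ⟨t, ht⟩ := hsN
    have hξ : IsPrimitiveRoot ((algebraMap (CyclotomicField R M) L ζ₁) ^ t) (s ^ N) :=
      hζL.pow (NeZero.pos R) (by rw [mul_comm]; exact ht)
    obtain ⟨u, hu, huj, z, hz⟩ := rts s N hsp _ hξ (q : L) hqL j hj y hy
    have hsr : Nat.Coprime (s ^ (N - u)) r := by
      apply Nat.Coprime.pow_left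
      rw [Nat.coprime_primes hsp hr]
      have h5 : s ≤ ∑ s ∈ S, s := Finset.single_le_sum (f := fun s => s) (fun _ _ => Nat.zero_le _) hs
      omega
    obtain ⟨z', hz'⟩ := h3 (s ^ (N - u)) hsr (q : CyclotomicField R M) ⟨z, by rw [hz, map_natCast]⟩
    have h6 := pwB (M := M) R ζ₁ hζ₁ s (d + 1) (N - u) hsp (hsR s hs (d + 1) (by rw [hN]; omega)) (by
      rw [← hd]
      exact tot_big hsp) (hsR s hs (N - u) (Nat.sub_le _ _)) q hq z' hz'
    rw [← hd] at h6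
    have h7 : D * (q * d * s ^ (d + 1)) ≤ s ^ N := by
      have h8 : s ^ (d + 1) ≤ ∑ s ∈ S, s ^ (d + 1) :=
        Finset.single_le_sum (f := fun s => s ^ (d + 1)) (fun _ _ => Nat.zero_le _) hs
      calc D * (q * d * s ^ (d + 1)) ≤ D * (q * d * ∑ s ∈ S, s ^ (d + 1)) :=
            Nat.mul_le_mul_left _ (Nat.mul_le_mul_left _ h8)
        _ ≤ N := by rw [hN]; exact Nat.le_add_right _ _
        _ ≤ 2 ^ N := Nat.lt_two_pow_self.le
        _ ≤ s ^ N := Nat.pow_le_pow_left hsp.two_le N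
    have h9 : 0 < q * d * s ^ (d + 1) := by
      have : 0 < s ^ (d + 1) := pow_pos hsp.pos _
      positivity
    have h10 : D * (q * d * s ^ (d + 1)) ≤ j * (q * d * s ^ (d + 1)) := by
      calc D * (q * d * s ^ (d + 1)) ≤ s ^ N := h7
        _ = s ^ u * s ^ (N - u) := by
          rw [← pow_add]
          congr 1
          omega
        _ ≤ j * (q * d * s ^ (d + 1)) := Nat.mul_le_mul (Nat.le_of_dvd (by omega) huj) h6
    exact Nat.le_of_mul_le_mul_right h10 h9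

end H13.KU
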