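import Pool.Agent.H63.MA.LBd

/-!
# KU-LSMD: from places to primes, with densities

As `lsm`: for each prime `l` there are at most `n = [K : ℚ]` places above `l`.
-/

set_option autoImplicit false

open Polynomial NumberField IsDedekindDomain
open H63.MA (Pl nm PZ Over)

noncomputable section

namespace H13.KU

/-- the primes with `P` have positive lower Dirichlet density -/
def PosDens (P : ℕ → Prop) : Prop :=
  ∃ c C : ℝ, 0 < c ∧ ∀ s : ℝ, 1 < s → s ≤ 2 →
    c * Real.log (1 / (s - 1)) - C ≤ ∑' l : {l : ℕ // l.Prime ∧ P l}, ((l : ℕ) : ℝ) ^ (-s)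

theorem posDens_mono {P Q : ℕ → Prop} (h : ∀ l, l.Prime → P l → Q l) (hP : PosDens P) :
    PosDens Q := by
  obtain ⟨c, C, hc, hC⟩ := hP
  refine ⟨c, C, hc, fun s hs hs2 => (hC s hs hs2).trans ?_⟩
  have hsum : ∀ R : ℕ → Prop, Summable fun l : {l : ℕ // l.Prime ∧ R l} => ((l : ℕ) : ℝ) ^ (-s) := by
    intro R
    have h1 : Summable fun n : ℕ => (n : ℝ) ^ (-s) := Real.summable_nat_rpow.2 (by linarith)
    exact h1.comp_injective Subtype.val_injective
  let g : {l : ℕ // l.Prime ∧ P l} → {l : ℕ // l.Prime ∧ Q l} := fun l => ⟨l.1, l.2.1, h l.1 l.2.1 l.2.2⟩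
  have hg : Function.Injective g := by
    intro a b hab
    have h3 : (g a).1 = (g b).1 := by rw [hab]
    exact Subtype.ext h3
  exact (hsum P).tsum_le_tsum_of_inj g hg
    (fun l _ => Real.rpow_nonneg (Nat.cast_nonneg _) _) (fun l => le_rfl) (hsum Q)

theorem lsmd {K : Type} [Field K] [NumberField K] (S : Set (Pl K)) (P : ℕ → Prop)
    (hS : ∀ v ∈ S, (nm v).Prime ∧ P (nm v)) (C : ℝ)
    (hC : ∀ s : ℝ, 1 < s → s ≤ 2 → 1 / 2 * Real.log (1 / (s - 1)) - C ≤ PZ S s) :
    PosDens P := by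
  classical
  set Q : ℕ → Prop := fun l => l.Prime ∧ P l with hQ
  have hgood : ∀ v ∈ S, Q (nm v) := hS
  set n : ℕ := Module.finrank ℤ (𝓞 K) with hn
  have hn0 : 0 < n := by
    rw [hn]
    exact Module.finrank_pos
  have hn0' : (0 : ℝ) < n := by exact_mod_cast hn0
  have hup : ∀ s : ℝ, 1 < s → PZ S s ≤ n * ∑' l : {l : ℕ // Q l}, ((l : ℕ) : ℝ) ^ (-s) := by
    intro s hs1
    have hs : Summable fun l : {l : ℕ // Q l} => ((l : ℕ) : ℝ) ^ (-s) := by
      have h1 : Summable fun n : ℕ => (n : ℝ) ^ (-s) := Real.summable_nat_rpow.2 (by linarith)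
      exact h1.comp_injective Subtype.val_injective
    have hfs : ∀ T : Finset ℕ, (∀ l ∈ T, Q l) → ∑ l ∈ T, ((l : ℕ) : ℝ) ^ (-s) ≤
        ∑' l : {l : ℕ // Q l}, ((l : ℕ) : ℝ) ^ (-s) := by
      intro T hT
      have h1 := hs.sum_le_tsum (T.subtype Q) (fun l _ => Real.rpow_nonneg (Nat.cast_nonneg _) _)
      rw [Finset.sum_subtype_of_mem (f := fun l : ℕ => ((l : ℕ) : ℝ) ^ (-s)) hT] at h1
      exact h1
    unfold PZ
    refine Real.tsum_le_of_sum_le (fun v => Set.indicator_nonneg (fun v _ =>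
      Real.rpow_nonneg (Nat.cast_nonneg _) _) v) ?_
    intro F
    set F' := F.filter (· ∈ S) with hF'
    have e1 : ∑ v ∈ F, S.indicator (fun v => (nm v : ℝ) ^ (-s)) v =
        ∑ v ∈ F', (nm v : ℝ) ^ (-s) := by
      rw [hF', Finset.sum_filter]
      apply Finset.sum_congr rfl
      intro v _
      rw [Set.indicator_apply]
    rw [e1]
    have hmem : ∀ v ∈ F', Q (nm v) := fun v hv => hgood v (Finset.mem_filter.mp hv).2
    calc ∑ v ∈ F', (nm v : ℝ) ^ (-s)
        = ∑ l ∈ F'.image nm, ∑ v ∈ F' with nm v = l, (nm v : ℝ) ^ (-s) := by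
          rw [Finset.sum_fiberwise_of_maps_to (fun v hv => Finset.mem_image_of_mem _ hv)]
      _ ≤ ∑ l ∈ F'.image nm, n * ((l : ℕ) : ℝ) ^ (-s) := by
          apply Finset.sum_le_sum
          intro l hl
          rw [Finset.mem_image] at hl
          obtain ⟨v0, hv0, hv0l⟩ := hl
          have hlp : l.Prime := by rw [← hv0l]; exact (hmem v0 hv0).1
          have e2 : ∑ v ∈ F' with nm v = l, (nm v : ℝ) ^ (-s) =
              ∑ v ∈ F' with nm v = l, ((l : ℕ) : ℝ) ^ (-s) := by
            apply Finset.sum_congr rfl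
            intro v hv
            rw [(Finset.mem_filter.mp hv).2]
          rw [e2, Finset.sum_const, nsmul_eq_mul]
          apply mul_le_mul_of_nonneg_right _ (Real.rpow_nonneg (Nat.cast_nonneg _) _)
          have := H63.MA.pzb_card_above hlp (F'.filter (fun v => nm v = l)) (by
            intro v hv
            have h1 := (Finset.mem_filter.mp hv).2
            change (l : 𝓞 K) ∈ v.asIdeal
            rw [← h1]
            exact Ideal.absNorm_mem v.asIdeal)
          exact_mod_cast this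
      _ = n * ∑ l ∈ F'.image nm, ((l : ℕ) : ℝ) ^ (-s) := by rw [Finset.mul_sum]
      _ ≤ n * ∑' l : {l : ℕ // Q l}, ((l : ℕ) : ℝ) ^ (-s) := by
          apply mul_le_mul_of_nonneg_left _ (Nat.cast_nonneg n)
          apply hfs
          intro l hl
          rw [Finset.mem_image] at hl
          obtain ⟨v, hv, rfl⟩ := hl
          exact hmem v hv
  refine ⟨1 / (2 * n), C / n, by positivity, fun s hs hs2 => ?_⟩
  have h1 := (hC s hs hs2).trans (hup s hs)
  have h2 : (1 / (2 * (n : ℝ)) * Real.log (1 / (s - 1)) - C / n) * n =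
      1 / 2 * Real.log (1 / (s - 1)) - C := by
    field_simp
  have h3 : (1 / (2 * (n : ℝ)) * Real.log (1 / (s - 1)) - C / n) * n ≤
      (∑' l : {l : ℕ // Q l}, ((l : ℕ) : ℝ) ^ (-s)) * n := by
    rw [h2]
    linarith
  exact le_of_mul_le_mul_right h3 hn0'

end H13.KU
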