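import Pool.Agent.H13.KU.Fld
import Pool.Agent.H13.KU.Gd
import Pool.Agent.H13.KU.Lsmd
import Pool.Agent.H13.KU.Dep
import Pool.Agent.H13.KU.Loc

/-!
# KU-KGD: primes `l` for which no root of `P` modulo `l` is in the group generated by `q`

`dep` gives `M`, `G`. For the roots of the third kind choose `A, B, s, f`; `S` = the set of these `s`, `E` = the largest
`f`. `Γ` = the roots of the second kind (`G.toFinset.filter`). `D = 2 (card Γ + card S) + 1`. `fld` gives `r, N, K, ζ, ρ`.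
`n = r ∏_(s ∈ S) s ^ (N + E)`. `gd` with `ι = Γ ⊕ S`: for `γ ∈ Γ` `m = r`, `α = γ` (in `𝓞 K`); for `s ∈ S` `m = s ^ N`,
`α = q`. `hd` for `γ`: if `γ ^ j = y ^ r` with `r ∤ j`, then `γ` is an `r`-th power in `K` (Bezout; `γ ≠ 0`), against `fld`;
so `r ∣ j`, `j ≥ r > D`. `hd` for `s`: `fld`. `B' = max B q` (so `q ∉ v` for `nm v > q`: if `q ∈ v` then `nm v`, a
prime, divides a power of `q`: `(q : 𝓞 K) ∈ v` and `nm v ∈ v` coprime otherwise gives `1 ∈ v`). `gd` and `lsmd` with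
`P l := B < l ∧ ∀ b : ZMod l, ..`; for the good `v` the condition is `loc`.
-/

set_option autoImplicit false

open Polynomial NumberField

namespace H13.KU

private theorem kgd_pow {K : Type} [Field K] (x : K) (hx : x ≠ 0) {r j : ℕ} (hr : r.Prime)
    (hrj : ¬ r ∣ j) (y : K) (h : x ^ j = y ^ r) : ∃ z : K, z ^ r = x := by
  have hc : IsCoprime (j : ℤ) (r : ℤ) := by
    rw [Nat.isCoprime_iff_coprime]
    exact ((Nat.Prime.coprime_iff_not_dvd hr).2 hrj).symm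
  obtain ⟨a, b, hab⟩ := hc
  refine ⟨y ^ a * x ^ b, ?_⟩
  have h1 : (y ^ a * x ^ b) ^ r = (y ^ r) ^ a * (x ^ r) ^ b := by
    rw [mul_pow, ← zpow_natCast, ← zpow_natCast, ← zpow_mul, ← zpow_mul, ← zpow_natCast,
      ← zpow_natCast, ← zpow_mul, ← zpow_mul, mul_comm a, mul_comm b]
  rw [h1, ← h, ← zpow_natCast, ← zpow_natCast, ← zpow_mul, ← zpow_mul, ← zpow_add₀ hx]
  have h2 : (j : ℤ) * a + (r : ℤ) * b = 1 := by
    rw [← hab]
    ring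
  rw [h2, zpow_one]

private theorem kgd_q {K : Type} [Field K] [NumberField K] (v : H63.MA.Pl K) (q : ℕ)
    (hq : 1 ≤ q) (hv : (H63.MA.nm v).Prime) (hqv : q < H63.MA.nm v) :
    (q : 𝓞 K) ∉ v.asIdeal := by
  intro h
  have h1 : ((H63.MA.nm v : ℕ) : 𝓞 K) ∈ v.asIdeal := Ideal.absNorm_mem v.asIdeal
  have hc : IsCoprime (q : ℤ) ((H63.MA.nm v : ℕ) : ℤ) := by
    rw [Nat.isCoprime_iff_coprime]
    exact (Nat.coprime_of_lt_prime (by omega) hqv hv).symm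
  obtain ⟨a, b, hab⟩ := hc
  have h2 : (a : 𝓞 K) * (q : 𝓞 K) + (b : 𝓞 K) * ((H63.MA.nm v : ℕ) : 𝓞 K) = 1 := by
    exact_mod_cast congrArg (Int.cast : ℤ → 𝓞 K) hab
  have h3 : (1 : 𝓞 K) ∈ v.asIdeal := by
    rw [← h2]
    exact v.asIdeal.add_mem (v.asIdeal.mul_mem_left _ h) (v.asIdeal.mul_mem_left _ h1)
  exact v.isPrime.ne_top ((Ideal.eq_top_iff_one _).2 h3)

theorem kgd (P : ℤ[X]) (hP : P.Monic) (q : ℕ) (hq : 2 ≤ q)
    (hr : ∀ γ : ℂ, aeval γ P = 0 → ∀ r c : ℕ, r ≠ 0 → γ ^ r ≠ (q : ℂ) ^ (r * c)) (B : ℕ) :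
    PosDens (fun l => B < l ∧ ∀ b : ZMod l, (P.map (Int.castRingHom (ZMod l))).eval b = 0 →
      b ^ orderOf (q : ZMod l) ≠ 1) := by
  classical
  obtain ⟨M, _, _, G, hG, hGk⟩ := dep P hP q hq hr
  have h3 : ∀ γ : 𝓞 M, ∃ s f : ℕ, (∃ A B s f : ℕ, s.Prime ∧ s ^ f ∣ A ∧ ¬ s ^ f ∣ B ∧
      γ ^ A = (q : 𝓞 M) ^ B) → s.Prime ∧ ∃ A B : ℕ, s ^ f ∣ A ∧ ¬ s ^ f ∣ B ∧
      γ ^ A = (q : 𝓞 M) ^ B := by
    intro γ
    by_cases h : ∃ A B s f : ℕ, s.Prime ∧ s ^ f ∣ A ∧ ¬ s ^ f ∣ B ∧ γ ^ A = (q : 𝓞 M) ^ B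
    · obtain ⟨A, B, s, f, h1, h2, h4, h5⟩ := h
      exact ⟨s, f, fun _ => ⟨h1, A, B, h2, h4, h5⟩⟩
    · exact ⟨0, 0, fun h1 => absurd h1 h⟩
  choose sF fF hF using h3
  obtain ⟨S, hSd⟩ : ∃ S : Finset ℕ, S = (G.toFinset.image sF).filter Nat.Prime := ⟨_, rfl⟩
  have hS : ∀ s ∈ S, s.Prime := fun s hs => by
    rw [hSd, Finset.mem_filter] at hs
    exact hs.2
  obtain ⟨E, hEd⟩ : ∃ E : ℕ, E = G.toFinset.sup fF := ⟨_, rfl⟩
  obtain ⟨Γ, hΓd⟩ : ∃ Γ : Finset (𝓞 M), Γ = G.toFinset.filter (fun γ => γ ≠ 0 ∧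
    ∀ A B : ℕ, γ ^ A = (q : 𝓞 M) ^ B → A = 0) := ⟨_, rfl⟩
  have hΓ : ∀ γ ∈ Γ, γ ≠ 0 ∧ ∀ A B : ℕ, γ ^ A = (q : 𝓞 M) ^ B → A = 0 := fun γ hγ => by
    rw [hΓd, Finset.mem_filter] at hγ
    exact hγ.2
  obtain ⟨D, hD⟩ : ∃ D : ℕ, D = 2 * Fintype.card ({x // x ∈ Γ} ⊕ {x // x ∈ S}) + 1 := ⟨_, rfl⟩
  obtain ⟨r, N, K, _, _, _, ζ, ρ, hr', hDr, hζ, hρ, hγr, hsj⟩ := fld M q hq Γ hΓ S hS E D
  obtain ⟨n, hn⟩ : ∃ n : ℕ, n = r * ∏ s ∈ S, s ^ (N + E) := ⟨_, rfl⟩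
  rw [← hn] at hζ
  have hn0 : n ≠ 0 := by
    rw [hn]
    exact mul_ne_zero hr'.ne_zero (Finset.prod_ne_zero_iff.2 fun s hs =>
      pow_ne_zero _ (hS s hs).ne_zero)
  have hinj : Function.Injective (algebraMap (𝓞 M) (𝓞 K)) := FaithfulSMul.algebraMap_injective _ _
  obtain ⟨C, hC⟩ := gd n hn0 ζ hζ
    (Sum.elim (fun _ => r) (fun s => s.1 ^ N) : {x // x ∈ Γ} ⊕ {x // x ∈ S} → ℕ)
    (Sum.elim (fun γ => algebraMap (𝓞 M) (𝓞 K) γ.1) (fun _ => (q : 𝓞 K)))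
    (by
      rintro (γ | s)
      · rw [Sum.elim_inl, hn]
        exact Dvd.intro _ rfl
      · rw [Sum.elim_inr, hn]
        refine Dvd.dvd.mul_left ?_ _
        refine dvd_trans ?_ (Finset.dvd_prod_of_mem (fun s => s ^ (N + E)) s.2)
        exact pow_dvd_pow _ (by omega))
    (by
      rintro (γ | s)
      · rw [Sum.elim_inl, Ne, map_eq_zero_iff _ hinj]
        exact (hΓ γ.1 γ.2).1
      · rw [Sum.elim_inr]
        exact_mod_cast (by omega : q ≠ 0))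
    (by
      rw [← hD]
      rintro (γ | s) j hj ⟨y, hy⟩
      · rw [Sum.elim_inl] at hy
        rw [Sum.elim_inl] at hy
        have hx : ((algebraMap (𝓞 M) (𝓞 K) γ.1 : 𝓞 K) : K) = algebraMap M K (γ.1 : M) := rfl
        rw [hx] at hy
        have hx0 : algebraMap M K (γ.1 : M) ≠ 0 := by
          rw [Ne, FaithfulSMul.algebraMap_eq_zero_iff, RingOfIntegers.coe_eq_zero_iff]
          exact (hΓ γ.1 γ.2).1
        by_cases hrj : r ∣ j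
        · exact (hDr.le).trans (Nat.le_of_dvd (Nat.pos_of_ne_zero hj) hrj)
        · obtain ⟨z, hz⟩ := kgd_pow _ hx0 hr' hrj y hy
          exact absurd hz (hγr γ.1 γ.2 z)
      · rw [Sum.elim_inr] at hy
        rw [Sum.elim_inr] at hy
        refine hsj s.1 s.2 j hj ⟨y, ?_⟩
        rw [← hy]
        simp)
    (max B q)
  refine lsmd _ (fun l => B < l ∧ ∀ b : ZMod l, (P.map (Int.castRingHom (ZMod l))).eval b = 0 →
        b ^ orderOf (q : ZMod l) ≠ 1) (fun v hv => ?_) C hC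
  obtain ⟨hv1, hv2, hv3, hv4⟩ := hv
  have hvB : B < H63.MA.nm v := lt_of_le_of_lt (le_max_left _ _) hv2
  have hvq : q < H63.MA.nm v := lt_of_le_of_lt (le_max_right _ _) hv2
  rw [hn] at hv3
  refine ⟨hv1, hvB, fun b hb => ?_⟩
  refine loc P G hG q r N E hr'.ne_zero ρ hρ S hS v hv1 (kgd_q v q (by omega) hv1 hvq) hv3
    (fun γ hγ => ?_) (fun s hs => ?_) b hb
  · rcases hGk γ hγ with h0 | h2 | h5
    · exact Or.inl h0
    · right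
      left
      have hγΓ : γ ∈ Γ := by
        rw [hΓd, Finset.mem_filter, Multiset.mem_toFinset]
        exact ⟨hγ, h2⟩
      exact hv4 (Sum.inl ⟨γ, hγΓ⟩)
    · right
      right
      obtain ⟨h6, A, B, h7, h8, h9⟩ := hF γ h5
      refine ⟨A, B, sF γ, fF γ, ?_, ?_, h7, h8, h9⟩
      · rw [hSd, Finset.mem_filter]
        exact ⟨Finset.mem_image_of_mem _ (Multiset.mem_toFinset.2 hγ), h6⟩
      · rw [hEd]
        exact Finset.le_sup (f := fF) (Multiset.mem_toFinset.2 hγ)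
  · exact hv4 (Sum.inr ⟨s, hs⟩)

end H13.KU
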