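import Pool.Agent.H13.KU.Spl

/-!
# KU-KMD: the primes modulo which `α` is an `n`-th power have density at most `1 / d`

`β` a root of `X ^ n - α` in an algebraic closure of `K`, `L = K(β)` (finite over `K`, so a number field). `X ^ n - α` splits in
`L` (the roots are `ζ ^ i β`) and is separable, so `L/K` is Galois (`L` is the splitting field of `X ^ n - α`,
`IsGalois.of_separable_splitting_field`; `X_pow_sub_C_splits_of_isPrimitiveRoot`). For `σ ∈ Gal(L/K)`: `σ β = χ(σ) β` with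
`χ(σ) ^ n = 1`, so `χ(σ)` is a power of `ζ`, in `K`; `χ` is an injective homomorphism, so with `m = [L : K] = |Gal|`
`χ(σ) ^ m = 1` for all `σ`, `β ^ m` is fixed, `β ^ m = y ∈ K`, `α ^ m = y ^ n`, so `d ≤ m` by `hd`.

Let `v` be in the set of the statement, `l = nm v`, `w` above `v` in `L` (`H63.MA.exists_over` or as in `TA/EInv.lean`) and
`σ` a Frobenius at `w` in `Gal(L/K)`: `σ x ≡ x ^ l` modulo `w` for all `x ∈ 𝓞 L` (`IsArithFrobAt`, as in `TA/EInv.lean`,
`H63.MA.gfrob_ex`). `β ∈ 𝓞 L`, `σ β ≡ β ^ l = β (β ^ n) ^ ((l - 1) / n) = β α ^ ((l - 1) / n) ≡ β` modulo `w`, and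
`β ∉ w` (else `α ∈ w`, `α ∈ v`, against `α ^ .. ≡ 1`), so `χ(σ) ≡ 1` modulo `w`, so modulo `v`. `χ(σ)` is a power
`ζ ^ i`; if `ζ ^ i ≠ 1`, then `1 - ζ ^ i` divides `n` in `𝓞 K` (`∏_(1 ≤ i < n) (1 - ζ ^ i) = n`,
`IsPrimitiveRoot` / `Polynomial.cyclotomic` lemmas), so `n ∈ v`, `l ∣ n` (`l = nm v` is prime), but `n ∣ l - 1`: not
possible. So `σ β = β`, `σ = 1` and `x ^ l ≡ x` modulo `w` for all `x ∈ 𝓞 L`. Now `spl`, with `d PZ ≤ m PZ`
(`H63.MA.pz_nonneg`).
-/

set_option autoImplicit false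

open Polynomial NumberField IsDedekindDomain
open H63.MA (Pl nm PZ Over)

noncomputable section

namespace H13.KU

/-- a root of unity `μ ≠ 1` of order dividing `n`: `μ - 1` divides `n` -/
private theorem kmd_dvd {R : Type} [CommRing R] [IsDomain R] (n : ℕ) (μ : R) (h1 : μ ^ n = 1)
    (h2 : μ ≠ 1) : μ - 1 ∣ (n : R) := by
  have h3 : (∑ j ∈ Finset.range n, μ ^ j) = 0 := by
    have h4 := geom_sum_mul μ n
    rw [h1, sub_self] at h4
    exact (mul_eq_zero.mp h4).resolve_right (sub_ne_zero.mpr h2)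
  have h5 : (n : R) = ∑ j ∈ Finset.range n, (1 - μ ^ j) := by
    rw [Finset.sum_sub_distrib, h3]
    simp
  rw [h5]
  refine Finset.dvd_sum fun j _ => ?_
  have h6 : μ - 1 ∣ μ ^ j - 1 := by
    have := sub_dvd_pow_sub_pow μ 1 j
    rwa [one_pow] at this
  have h7 := h6.neg_right
  rwa [neg_sub] at h7

private theorem kmd_core {K L : Type} [Field K] [NumberField K] [Field L] [NumberField L]
    [Algebra K L] [IsGalois K L] (n : ℕ) (hn : n ≠ 0) (ζ : K) (hζ : IsPrimitiveRoot ζ n) (α : 𝓞 K)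
    (hα : α ≠ 0) (hsp : Polynomial.IsSplittingField K L (X ^ n - C (α : K))) (v : Pl K)
    (hp : (nm v).Prime) (hdv : n ∣ nm v - 1) (hav : α ^ ((nm v - 1) / n) - 1 ∈ v.asIdeal) :
    ∃ w : Pl L, Over w v ∧ ∀ x : 𝓞 L, x ^ nm v - x ∈ w.asIdeal := by
  classical
  have hα' : (α : K) ≠ 0 := fun h => hα (RingOfIntegers.ext h)
  have hnpos : 0 < n := Nat.pos_of_ne_zero hn
  obtain ⟨l, hl⟩ : ∃ l, l = nm v := ⟨_, rfl⟩
  rw [← hl] at hp hdv hav ⊢
  have hl1 : 1 < l := hp.one_lt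
  obtain ⟨e, he⟩ := hdv
  have he0 : e ≠ 0 := by
    rintro rfl
    omega
  have hle : l = n * e + 1 := by omega
  have hdiv : (l - 1) / n = e := by
    rw [he]
    exact Nat.mul_div_cancel_left e hnpos
  rw [hdiv] at hav
  have hinj : Function.Injective (algebraMap K L) := (algebraMap K L).injective
  -- the root
  have hdeg : (X ^ n - C (α : K) : K[X]).degree ≠ 0 := by
    rw [degree_X_pow_sub_C hnpos]
    exact_mod_cast hn
  obtain ⟨b, hb⟩ : ∃ b : L, b ^ n = algebraMap K L (α : K) := by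
    have h1 : ((X ^ n - C (α : K)).map (algebraMap K L)).Splits := hsp.splits'
    obtain ⟨b, hb⟩ := h1.exists_eval_eq_zero (by rw [degree_map]; exact hdeg)
    refine ⟨b, ?_⟩
    rw [Polynomial.map_sub, Polynomial.map_pow, map_X, map_C, eval_sub, eval_pow, eval_X, eval_C,
      sub_eq_zero] at hb
    exact hb
  have hb0 : b ≠ 0 := by
    rintro rfl
    rw [zero_pow hn] at hb
    exact hα' (hinj (by rw [← hb, map_zero]))
  have hbint : IsIntegral ℤ b := by
    apply IsIntegral.of_pow hnpos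
    rw [hb]
    exact α.2.map (algebraMap K L).toIntAlgHom
  obtain ⟨β, hβ⟩ : ∃ β : 𝓞 L, algebraMap (𝓞 L) L β = b := ⟨⟨b, hbint⟩, rfl⟩
  have hLinj : Function.Injective (algebraMap (𝓞 L) L) := RingOfIntegers.coe_injective
  have hβn : β ^ n = algebraMap (𝓞 K) (𝓞 L) α := by
    apply hLinj
    rw [map_pow, hβ, hb]
    rfl
  obtain ⟨w, hw⟩ : ∃ w : Pl L, Over w v := by
    obtain ⟨Q, hQ, hQv⟩ := Ideal.exists_maximal_ideal_liesOver_of_isIntegral (S := 𝓞 L) v.asIdeal
    exact ⟨⟨Q, hQ.isPrime, Ideal.ne_bot_of_liesOver_of_ne_bot v.ne_bot Q⟩, hQv.over.symm⟩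
  have hwmem : ∀ t : 𝓞 K, algebraMap (𝓞 K) (𝓞 L) t ∈ w.asIdeal ↔ t ∈ v.asIdeal := by
    intro t
    rw [← hw]
    rfl
  refine ⟨w, hw, ?_⟩
  have hwp := w.isPrime
  have hvp := v.isPrime
  have hfin : Finite (𝓞 L ⧸ w.asIdeal) := Ideal.finiteQuotientOfFreeOfNeBot _ w.ne_bot
  obtain ⟨σ, hσ⟩ := IsArithFrobAt.exists_of_isInvariant (𝓞 K) Gal(L/K) w.asIdeal
  have hun : w.asIdeal.under (𝓞 K) = v.asIdeal := hw
  have hcard : Nat.card (𝓞 K ⧸ w.asIdeal.under (𝓞 K)) = l := by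
    rw [hun, hl]
    unfold nm
    rw [Ideal.absNorm_apply, Submodule.cardQuot_apply]
  have hfrob : ∀ x : 𝓞 L, σ • x - x ^ l ∈ w.asIdeal := by
    intro x
    have h1 := hσ x
    rw [hcard] at h1
    exact h1
  have hβw : β ∉ w.asIdeal := by
    intro h
    have h1 : algebraMap (𝓞 K) (𝓞 L) α ∈ w.asIdeal := by
      rw [← hβn]
      exact Ideal.pow_mem_of_mem _ h n hnpos
    rw [hwmem] at h1
    have h2 : α ^ e ∈ v.asIdeal := Ideal.pow_mem_of_mem _ h1 e (Nat.pos_of_ne_zero he0)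
    have h3 : (1 : 𝓞 K) ∈ v.asIdeal := by
      have := v.asIdeal.sub_mem h2 hav
      rwa [sub_sub_cancel] at this
    exact hvp.ne_top ((Ideal.eq_top_iff_one _).mpr h3)
  -- the root of unity `σ b / b`
  have hμn : (σ b / b) ^ n = 1 := by
    rw [div_pow, ← map_pow, hb, AlgEquiv.commutes]
    exact div_self fun h => hα' (hinj (by rw [h, map_zero]))
  have hμint : IsIntegral ℤ (σ b / b) := by
    apply IsIntegral.of_pow hnpos
    rw [hμn]
    exact isIntegral_one
  obtain ⟨μ, hμ⟩ : ∃ μ : 𝓞 L, algebraMap (𝓞 L) L μ = σ b / b := ⟨⟨_, hμint⟩, rfl⟩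
  have hμn' : μ ^ n = 1 := by
    apply hLinj
    rw [map_pow, hμ, hμn, map_one]
  have hσβ : σ • β = μ * β := by
    apply hLinj
    rw [map_mul, hμ, hβ, div_mul_cancel₀ _ hb0]
    have : algebraMap (𝓞 L) L (σ • β) = σ (algebraMap (𝓞 L) L β) := rfl
    rw [this, hβ]
  have hμw : μ - 1 ∈ w.asIdeal := by
    have h1 : σ • β - β ^ l ∈ w.asIdeal := hfrob β
    have h2 : β ^ l - β ∈ w.asIdeal := by
      have h3 : β ^ l - β = β * algebraMap (𝓞 K) (𝓞 L) (α ^ e - 1) := by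
        rw [map_sub, map_pow, map_one, ← hβn, hle]
        ring
      rw [h3]
      exact w.asIdeal.mul_mem_left _ ((hwmem _).mpr hav)
    have h4 : (μ - 1) * β ∈ w.asIdeal := by
      have h5 := w.asIdeal.add_mem h1 h2
      have h6 : σ • β - β ^ l + (β ^ l - β) = (μ - 1) * β := by
        rw [hσβ]
        ring
      rwa [h6] at h5
    exact (hwp.mem_or_mem h4).resolve_right hβw
  have hμ1 : μ = 1 := by
    by_contra hne
    have h1 := kmd_dvd n μ hμn' hne
    have h2 : (n : 𝓞 L) ∈ w.asIdeal := w.asIdeal.mem_of_dvd h1 hμw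
    have h3 : (n : 𝓞 K) ∈ v.asIdeal := by
      rw [← hwmem, map_natCast]
      exact h2
    have h4 : (l : 𝓞 K) ∈ v.asIdeal := by
      rw [hl]
      exact Ideal.absNorm_mem v.asIdeal
    have hco : Nat.Coprime n l := by
      rw [hle]
      simp
    have h5 : IsCoprime (n : 𝓞 K) (l : 𝓞 K) := by
      have := (Nat.isCoprime_iff_coprime.mpr hco).map (Int.castRingHom (𝓞 K))
      simpa using this
    obtain ⟨x, y, hxy⟩ := h5
    have h6 : (1 : 𝓞 K) ∈ v.asIdeal := by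
      rw [← hxy]
      exact v.asIdeal.add_mem (v.asIdeal.mul_mem_left _ h3) (v.asIdeal.mul_mem_left _ h4)
    exact hvp.ne_top ((Ideal.eq_top_iff_one _).mpr h6)
  have hσb : σ b = b := by
    rw [hμ1, map_one] at hμ
    rw [eq_comm, div_eq_one_iff_eq hb0] at hμ
    exact hμ
  -- `σ = 1`
  have hσ1 : ∀ x : L, σ x = x := by
    have h1 : (σ : L →ₐ[K] L) = AlgHom.id K L := by
      refine AlgHom.ext_of_adjoin_eq_top (Polynomial.IsSplittingField.adjoin_rootSet L (X ^ n - C (α : K))) ?_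
      intro ρ hρ
      have h2 : ρ ^ n = algebraMap K L (α : K) := by
        have h3 := (mem_rootSet.mp hρ).2
        rw [map_sub, map_pow, aeval_X, aeval_C, sub_eq_zero] at h3
        exact h3
      haveI : NeZero n := ⟨hn⟩
      have hζL : IsPrimitiveRoot (algebraMap K L ζ) n := hζ.map_of_injective hinj
      have h4 : (ρ / b) ^ n = 1 := by
        rw [div_pow, h2, hb]
        exact div_self fun h => hα' (hinj (by rw [h, map_zero]))
      obtain ⟨i, _, hi⟩ := hζL.eq_pow_of_pow_eq_one h4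
      have h5 : ρ = algebraMap K L (ζ ^ i) * b := by
        rw [map_pow, hi, div_mul_cancel₀ _ hb0]
      show σ ρ = ρ
      rw [h5, map_mul, AlgEquiv.commutes, hσb]
    intro x
    exact DFunLike.congr_fun h1 x
  intro x
  have h1 := hfrob x
  have h2 : σ • x = x := by
    apply hLinj
    exact hσ1 (x : L)
  rw [h2] at h1
  have h3 := w.asIdeal.neg_mem h1
  rwa [neg_sub] at h3

theorem kmd {K : Type} [Field K] [NumberField K] (n : ℕ) (hn : n ≠ 0) (ζ : K)
    (hζ : IsPrimitiveRoot ζ n) (α : 𝓞 K) (hα : α ≠ 0) (d : ℕ)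
    (hd : ∀ j : ℕ, j ≠ 0 → (∃ y : K, (α : K) ^ j = y ^ n) → d ≤ j) :
    ∃ C : ℝ, ∀ s : ℝ, 1 < s → s ≤ 2 →
      d * PZ {v : Pl K | (nm v).Prime ∧ n ∣ nm v - 1 ∧ α ^ ((nm v - 1) / n) - 1 ∈ v.asIdeal} s ≤
        Real.log (1 / (s - 1)) + C := by
  classical
  have hα' : (α : K) ≠ 0 := fun h => hα (RingOfIntegers.ext h)
  have hnpos : 0 < n := Nat.pos_of_ne_zero hn
  let L := (X ^ n - C (α : K) : K[X]).SplittingField
  have hfd : FiniteDimensional K L := Polynomial.IsSplittingField.finiteDimensional L (X ^ n - C (α : K))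
  have hL : NumberField L := NumberField.of_module_finite K L
  have hsep : (X ^ n - C (α : K) : K[X]).Separable :=
    separable_X_pow_sub_C (α : K) (by exact_mod_cast hn) hα'
  have hgal : IsGalois K L := IsGalois.of_separable_splitting_field hsep
  have hsp : Polynomial.IsSplittingField K L (X ^ n - C (α : K)) := inferInstance
  obtain ⟨C₀, hC₀⟩ := spl (K := K) (L := L)
    {v : Pl K | (nm v).Prime ∧ n ∣ nm v - 1 ∧ α ^ ((nm v - 1) / n) - 1 ∈ v.asIdeal} (by
      rintro v ⟨h1, h2, h3⟩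
      exact ⟨h1, kmd_core n hn ζ hζ α hα hsp v h1 h2 h3⟩)
  refine ⟨C₀, fun s h1 h2 => ?_⟩
  refine le_trans ?_ (hC₀ s h1 h2)
  refine mul_le_mul_of_nonneg_right ?_ (H63.MA.pz_nonneg _ s)
  have hinj : Function.Injective (algebraMap K L) := (algebraMap K L).injective
  obtain ⟨b, hb⟩ : ∃ b : L, b ^ n = algebraMap K L (α : K) := by
    have h1 : ((X ^ n - C (α : K)).map (algebraMap K L)).Splits := hsp.splits'
    obtain ⟨b, hb⟩ := h1.exists_eval_eq_zero (by
      rw [degree_map, degree_X_pow_sub_C hnpos]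
      exact_mod_cast hn)
    refine ⟨b, ?_⟩
    rw [Polynomial.map_sub, Polynomial.map_pow, map_X, map_C, eval_sub, eval_pow, eval_X, eval_C,
      sub_eq_zero] at hb
    exact hb
  have h3 : d ≤ Module.finrank K L := by
    refine hd (Module.finrank K L) (Module.finrank_pos.ne') ⟨Algebra.norm K b, ?_⟩
    rw [← map_pow (Algebra.norm K) b n, hb, Algebra.norm_algebraMap]
  exact_mod_cast h3

end H13.KU
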