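import Pool.Agent.H13.KU.Tri
import Pool.Agent.H13.KU.Sig

/-!
# KU-PWA: an element of `M` which is an `r`-th power in `M(ζ)`, `r` a large prime, is one in `M`

`sig` with `s = r`, `e = 1` (`φ(r) = r - 1 > [M : ℚ]`) gives `σ`, `k` with `r ∤ k - 1`; `tri` with `m = r` gives
`x ^ (k - 1) = c ^ r`. `k - 1` and `r` are coprime: `u (k - 1) = 1 + v r` with `u, v ∈ ℕ`
(`Nat.exists_mul_emod_eq_one_of_coprime` or `Int.gcd_eq_gcd_ab` with `zpow`), `x = c ^ (r u) / x ^ (r v) = (c ^ u / x ^ v) ^ r`.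
-/

set_option autoImplicit false

open Polynomial NumberField

namespace H13.KU

theorem pwA {M K : Type} [Field M] [NumberField M] [Field K] [NumberField K] [Algebra M K] (R : ℕ)
    [NeZero R] [IsCyclotomicExtension {R} M K] (ζ : K) (hζ : IsPrimitiveRoot ζ R) (r : ℕ)
    (hr : r.Prime) (hrR : r ∣ R) (hbig : Module.finrank ℚ M + 1 < r) (x : M) (hx : x ≠ 0) (β : K)
    (hβ : β ^ r = algebraMap M K x) : ∃ c : M, c ^ r = x := by
  obtain ⟨σ, k, hk, hσ, hd⟩ := sig (M := M) R ζ hζ r 1 hr (by rwa [pow_one]) (by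
    rw [pow_one, Nat.totient_prime hr]
    omega)
  rw [pow_one] at hd
  obtain ⟨c, hc⟩ := tri R ζ hζ r hrR x hx β hβ σ k hk hσ
  have hco : Nat.Coprime (k - 1) r := ((Nat.Prime.coprime_iff_not_dvd hr).mpr hd).symm
  obtain ⟨u, hu⟩ := Nat.exists_mul_mod_eq_one_of_coprime hco hr.one_lt
  have h1 : (k - 1) * u = 1 + (((k - 1) * u) / r) * r := by
    have h2 := Nat.div_add_mod ((k - 1) * u) r
    have h3 := mul_comm r (((k - 1) * u) / r)
    omega
  obtain ⟨v, hv⟩ : ∃ v, v = ((k - 1) * u) / r := ⟨_, rfl⟩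
  rw [← hv] at h1
  refine ⟨c ^ u / x ^ v, ?_⟩
  have h4 : x ^ ((k - 1) * u) = (c ^ u) ^ r := by
    rw [pow_mul, hc]
    ring
  rw [h1, pow_add, pow_one, pow_mul] at h4
  rw [div_pow, ← h4]
  have h5 : (x ^ v) ^ r ≠ 0 := pow_ne_zero _ (pow_ne_zero _ hx)
  field_simp

end H13.KU
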