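import Pool.Agent.H63.MA.LBd

/-!
# KU-SPL: the primes which split completely have density at most `1 / [L : K]`

Compare `H13.TA.inert_or_split`, `H13.TA.inert_pz` (files `TA/EInv.lean`, `TA/EPz.lean`) for the quadratic case.
Let `G = Gal(L/K)`, `d = [L : K]`. There is `θ ∈ 𝓞 L` with `σ θ ≠ θ` for all `σ ≠ 1` (primitive element times an integer).
`T` = the primes of `K` below the finitely many primes of `L` containing some `θ - σ θ`, `σ ≠ 1`. Let `v ∈ S`, `v ∉ T`, `w`
above `v` as in `hS`, `l = nm v` prime: all elements of the field `𝓞 L / w` satisfy `x ^ l = x`, so it has at most `l`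
elements and `nm w = l` (it contains `𝓞 K / v`), and `𝓞 K → 𝓞 L / w` is surjective. The primes `σ w`, `σ ∈ G`, are above
`v`, of norm `l`, and pairwise different: if `σ w = w`, then `σ` acts on `𝓞 L / w`, trivially, since every element is the class
of an element of `𝓞 K`; so `σ θ - θ ∈ w`, `σ = 1`. So for each `v ∈ S \ T` there are `d` places of `L` above `v` with norm
`nm v`; the places for different `v` are different, so `d PZ (S \ T) ≤ PZ univ ≤ log (1 / (s - 1)) + C` (`H63.MA.pz_all`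
for `L`; injection `(S \ T) × G → Pl L`), and `PZ S ≤ PZ (S \ T) + PZ T`, `H63.MA.pz_finite`.
-/

set_option autoImplicit false

open Polynomial NumberField IsDedekindDomain
open H63.MA (Pl nm PZ Over)

noncomputable section

namespace H13.KU

/-- `c` on the integers -/
private def cI {K M : Type} [Field K] [NumberField K] [Field M] [NumberField M]
    [Algebra K M] (c : M ≃ₐ[K] M) : 𝓞 M ≃+* 𝓞 M := RingOfIntegers.mapRingEquiv c.toRingEquiv

private theorem oext' {M : Type} [Field M] [NumberField M] {x y : 𝓞 M}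
    (h : algebraMap (𝓞 M) M x = algebraMap (𝓞 M) M y) : x = y := RingOfIntegers.ext h

private theorem cI_apply {K M : Type} [Field K] [NumberField K] [Field M] [NumberField M]
    [Algebra K M] (c : M ≃ₐ[K] M) (x : 𝓞 M) : ((cI c x : 𝓞 M) : M) = c (x : M) := rfl

private theorem cI_alg {K M : Type} [Field K] [NumberField K] [Field M] [NumberField M]
    [Algebra K M] (c : M ≃ₐ[K] M) (x : 𝓞 K) :
    cI c (algebraMap (𝓞 K) (𝓞 M) x) = algebraMap (𝓞 K) (𝓞 M) x := by
  apply oext'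
  change c (algebraMap K M (x : K)) = algebraMap K M (x : K)
  exact c.commutes _

private theorem conj_bot {K M : Type} [Field K] [NumberField K] [Field M] [NumberField M]
    [Algebra K M] (c : M ≃ₐ[K] M) (w : Pl M) :
    w.asIdeal.comap (cI c : 𝓞 M →+* 𝓞 M) ≠ ⊥ := by
  intro h
  apply w.ne_bot
  rw [eq_bot_iff]
  intro y hy
  have : (cI c).symm y ∈ w.asIdeal.comap (cI c : 𝓞 M →+* 𝓞 M) := by
    change cI c ((cI c).symm y) ∈ w.asIdeal
    rw [RingEquiv.apply_symm_apply]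
    exact hy
  rw [h, Submodule.mem_bot] at this
  rw [Submodule.mem_bot]
  exact (map_eq_zero_iff _ (cI c).symm.injective).mp this

/-- the conjugate prime -/
private def cj {K M : Type} [Field K] [NumberField K] [Field M] [NumberField M]
    [Algebra K M] (c : M ≃ₐ[K] M) (w : Pl M) : Pl M :=
  have := w.isPrime
  ⟨w.asIdeal.comap (cI c : 𝓞 M →+* 𝓞 M), inferInstance, conj_bot c w⟩

private theorem cj_mem {K M : Type} [Field K] [NumberField K] [Field M] [NumberField M]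
    [Algebra K M] (c : M ≃ₐ[K] M) (w : Pl M) (x : 𝓞 M) :
    x ∈ (cj c w).asIdeal ↔ cI c x ∈ w.asIdeal := Iff.rfl

private theorem cj_nm {K M : Type} [Field K] [NumberField K] [Field M] [NumberField M]
    [Algebra K M] (c : M ≃ₐ[K] M) (w : Pl M) : nm (cj c w) = nm w := by
  unfold nm
  rw [Ideal.absNorm_apply, Submodule.cardQuot_apply, Ideal.absNorm_apply,
    Submodule.cardQuot_apply]
  apply Nat.card_congr
  refine (Ideal.quotientEquiv _ _ (cI c) ?_).toEquiv
  exact (Ideal.map_comap_of_surjective _ (cI c).surjective _).symm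

private theorem cj_over {K M : Type} [Field K] [NumberField K] [Field M] [NumberField M]
    [Algebra K M] (c : M ≃ₐ[K] M) (w : Pl M) (v : Pl K) (h : Over w v) : Over (cj c w) v := by
  change (w.asIdeal.comap (cI c : 𝓞 M →+* 𝓞 M)).comap (algebraMap (𝓞 K) (𝓞 M)) = v.asIdeal
  rw [Ideal.comap_comap]
  have : (cI c : 𝓞 M →+* 𝓞 M).comp (algebraMap (𝓞 K) (𝓞 M)) = algebraMap (𝓞 K) (𝓞 M) := by
    ext x
    have := cI_alg c x
    exact congrArg (algebraMap (𝓞 M) M) this
  rw [this]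
  exact h

private theorem exists_theta {K L : Type} [Field K] [NumberField K] [Field L] [NumberField L]
    [Algebra K L] : ∃ θ : 𝓞 L, ∀ σ : L ≃ₐ[K] L, σ ≠ 1 → cI σ θ ≠ θ := by
  obtain ⟨α, hα⟩ := Field.exists_primitive_element K L
  obtain ⟨a, b, hb, rfl⟩ := IsFractionRing.div_surjective (𝓞 L) α
  obtain ⟨c, n, hn, hc⟩ := Algebra.IsAlgebraic.exists_smul_eq_mul ℤ a
    (nonZeroDivisors.ne_zero hb)
  refine ⟨c, fun σ hσ h => hσ ?_⟩
  have hb0 : algebraMap (𝓞 L) L b ≠ 0 := by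
    rw [Ne, FaithfulSMul.algebraMap_eq_zero_iff]
    exact nonZeroDivisors.ne_zero hb
  have h1 : (n : L) * (algebraMap (𝓞 L) L a / algebraMap (𝓞 L) L b) =
      algebraMap (𝓞 L) L c := by
    have h2 : (n : L) * algebraMap (𝓞 L) L a = algebraMap (𝓞 L) L b * algebraMap (𝓞 L) L c := by
      rw [← map_mul, ← hc, zsmul_eq_mul, map_mul, map_intCast]
    rw [← mul_div_assoc, h2]
    field_simp
  have h3 : σ (algebraMap (𝓞 L) L c) = algebraMap (𝓞 L) L c :=
    congrArg (algebraMap (𝓞 L) L) h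
  rw [← h1, map_mul, map_intCast] at h3
  have hn0 : (n : L) ≠ 0 := by exact_mod_cast hn
  have h4 := mul_left_cancel₀ hn0 h3
  have h5 : ∀ x : L, σ x = x := by
    intro x
    have hx : x ∈ IntermediateField.adjoin K {algebraMap (𝓞 L) L a / algebraMap (𝓞 L) L b} := by
      rw [hα]
      exact IntermediateField.mem_top
    induction hx using IntermediateField.adjoin_induction with
    | mem y hy =>
      rw [Set.mem_singleton_iff] at hy
      rw [hy]
      exact h4
    | algebraMap y => exact σ.commutes y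
    | add y z _ _ hy hz => rw [map_add, hy, hz]
    | inv y _ hy => rw [map_inv₀, hy]
    | mul y z _ _ hy hz => rw [map_mul, hy, hz]
  exact AlgEquiv.ext h5

private theorem spl_union {K : Type} [Field K] [NumberField K] (S S' : Set (Pl K)) {s : ℝ}
    (hs : 1 < s) : PZ (S ∪ S') s ≤ PZ S s + PZ S' s := by
  have h1 := H63.MA.pz_add S S' hs
  have h2 := H63.MA.pz_nonneg (S ∩ S') s
  linarith

/-- the residue field has prime order -/
private theorem spl_res {L : Type} [Field L] [NumberField L] (w : Pl L) (l : ℕ) (hl : l.Prime)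
    (hlw : (l : 𝓞 L) ∈ w.asIdeal) (hA : ∀ x : 𝓞 L, x ^ l - x ∈ w.asIdeal) :
    nm w = l ∧ ∀ x : 𝓞 L, ∃ m : ℕ, x - (m : 𝓞 L) ∈ w.asIdeal := by
  classical
  have hlF : Fact l.Prime := ⟨hl⟩
  have hwp := w.isPrime
  have hwm := w.isMaximal
  let _ := Ideal.Quotient.field w.asIdeal
  have : CharP (𝓞 L ⧸ w.asIdeal) l := by
    rw [CharP.charP_iff_prime_eq_zero hl]
    rw [← map_natCast (Ideal.Quotient.mk w.asIdeal), Ideal.Quotient.eq_zero_iff_mem]
    exact hlw
  have : Finite (𝓞 L ⧸ w.asIdeal) := Ideal.finiteQuotientOfFreeOfNeBot w.asIdeal w.ne_bot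
  let _ := Fintype.ofFinite (𝓞 L ⧸ w.asIdeal)
  have hcard : Fintype.card (𝓞 L ⧸ w.asIdeal) = nm w := by
    unfold nm
    rw [Ideal.absNorm_apply, Submodule.cardQuot_apply, Nat.card_eq_fintype_card]
  have hle : Fintype.card (𝓞 L ⧸ w.asIdeal) ≤ l := by
    have hne : (X ^ l - X : (𝓞 L ⧸ w.asIdeal)[X]) ≠ 0 :=
      FiniteField.X_pow_card_sub_X_ne_zero _ hl.one_lt
    have h1 : (Finset.univ : Finset (𝓞 L ⧸ w.asIdeal)).card ≤
        (X ^ l - X : (𝓞 L ⧸ w.asIdeal)[X]).natDegree := by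
      apply card_le_degree_of_subset_roots
      intro x _
      rw [mem_roots hne, IsRoot.def, eval_sub, eval_pow, eval_X]
      obtain ⟨x, rfl⟩ := Ideal.Quotient.mk_surjective x
      rw [← map_pow, ← map_sub, Ideal.Quotient.eq_zero_iff_mem]
      exact hA x
    rw [FiniteField.X_pow_card_sub_X_natDegree_eq _ hl.one_lt] at h1
    exact h1
  have hnmw : nm w = l := by
    obtain ⟨f, hf, hnf⟩ := H63.MA.pzb_nm_pow hl (v := w) hlw
    rw [hcard, hnf] at hle
    have h1 : l ^ f ≤ l ^ 1 := by rwa [pow_one]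
    have h3 : f ≤ 1 := (Nat.pow_le_pow_iff_right hl.one_lt).1 h1
    have h4 : f = 1 := le_antisymm h3 hf
    rw [hnf, h4, pow_one]
  refine ⟨hnmw, fun x => ?_⟩
  have hcl : Fintype.card (𝓞 L ⧸ w.asIdeal) = l := by rw [hcard, hnmw]
  obtain ⟨m, hm⟩ := (ZMod.castHom_bijective (𝓞 L ⧸ w.asIdeal) hcl).2
    (Ideal.Quotient.mk w.asIdeal x)
  refine ⟨m.val, ?_⟩
  rw [← Ideal.Quotient.eq_zero_iff_mem, map_sub, map_natCast, ← hm, sub_eq_zero]
  conv_lhs => rw [← ZMod.natCast_zmod_val m]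
  rw [map_natCast]

theorem spl {K L : Type} [Field K] [NumberField K] [Field L] [NumberField L] [Algebra K L]
    [IsGalois K L] (S : Set (Pl K)) (hS : ∀ v ∈ S, (nm v).Prime ∧ ∃ w : Pl L, Over w v ∧
      ∀ x : 𝓞 L, x ^ nm v - x ∈ w.asIdeal) :
    ∃ C : ℝ, ∀ s : ℝ, 1 < s → s ≤ 2 →
      Module.finrank K L * PZ S s ≤ Real.log (1 / (s - 1)) + C := by
  classical
  obtain ⟨θ, hθ⟩ := exists_theta (K := K) (L := L)
  obtain ⟨W, hWd⟩ : ∃ W : Set (Pl L), W = {w : Pl L | ∃ σ : L ≃ₐ[K] L, σ ≠ 1 ∧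
    θ - cI σ θ ∈ w.asIdeal} := ⟨_, rfl⟩
  have hWfin : W.Finite := by
    have h1 : W = ⋃ σ ∈ {σ : L ≃ₐ[K] L | σ ≠ 1}, {w : Pl L | θ - cI σ θ ∈ w.asIdeal} := by
      ext w
      simp [hWd]
    rw [h1]
    refine Set.Finite.biUnion (Set.toFinite _) fun σ hσ => ?_
    have h1 : Ideal.span {θ - cI σ θ} ≠ 0 := by
      rw [Ne, Ideal.zero_eq_bot, Ideal.span_singleton_eq_bot]
      exact sub_ne_zero.mpr (Ne.symm (hθ σ hσ))
    refine (Ideal.finite_factors h1).subset ?_
    intro w hw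
    change w.asIdeal ∣ _
    rw [Ideal.dvd_iff_le]
    exact (Ideal.span_singleton_le_iff_mem _).2 hw
  obtain ⟨T, hTd⟩ : ∃ T : Set (Pl K), T = (fun w : Pl L => w.under (𝓞 K)) '' W := ⟨_, rfl⟩
  have hTf : T.Finite := by
    rw [hTd]
    exact hWfin.image _
  have hTm : ∀ u, u ∈ T ↔ u ∈ (fun w : Pl L => w.under (𝓞 K)) '' W := fun u => by rw [hTd]
  clear hTd
  have hov : ∀ (w : Pl L) (v v' : Pl K), Over w v → Over w v' → v = v' := by
    intro w v v' h h'
    exact HeightOneSpectrum.ext (h.symm.trans h')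
  have hg : ∀ v : (S \ T : Set (Pl K)), ∃ w : Pl L, Over w v.1 ∧
      ∀ x : 𝓞 L, x ^ nm v.1 - x ∈ w.asIdeal := fun v => (hS v.1 v.2.1).2
  choose g hgo hgx using hg
  have hlw : ∀ v : (S \ T : Set (Pl K)), ((nm v.1 : ℕ) : 𝓞 L) ∈ (g v).asIdeal := by
    intro v
    have h1 : ((nm v.1 : ℕ) : 𝓞 K) ∈ v.1.asIdeal := Ideal.absNorm_mem v.1.asIdeal
    rw [← hgo v] at h1
    simpa using h1
  have hres : ∀ v : (S \ T : Set (Pl K)), nm (g v) = nm v.1 ∧
      ∀ x : 𝓞 L, ∃ m : ℕ, x - (m : 𝓞 L) ∈ (g v).asIdeal := fun v =>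
    spl_res (g v) (nm v.1) (hS v.1 v.2.1).1 (hlw v) (hgx v)
  -- the places above
  obtain ⟨f, hf⟩ : ∃ f : (S \ T : Set (Pl K)) × (L ≃ₐ[K] L) → Pl L,
    f = fun p => cj p.2 (g p.1) := ⟨_, rfl⟩
  have hfn : ∀ p, nm (f p) = nm p.1.1 := fun p => by
    rw [hf]
    exact (cj_nm p.2 (g p.1)).trans (hres p.1).1
  have hfo : ∀ p, Over (f p) p.1.1 := fun p => by
    rw [hf]
    exact cj_over p.2 (g p.1) p.1.1 (hgo p.1)
  have hfi : Function.Injective f := by
    rintro ⟨v, σ⟩ ⟨v', τ⟩ h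
    have h1 : v = v' := by
      refine Subtype.ext (hov (f (v, σ)) v.1 v'.1 (hfo (v, σ)) ?_)
      rw [h]
      exact hfo (v', τ)
    subst h1
    by_contra hne
    have hστ : σ ≠ τ := fun h2 => hne (by rw [h2])
    -- `ρ = σ τ⁻¹` fixes `w`
    have h2 : cj σ (g v) = cj τ (g v) := by
      have := h
      rw [hf] at this
      exact this
    have hρ : ∀ x : 𝓞 L, x ∈ (g v).asIdeal → cI (σ * τ⁻¹) x ∈ (g v).asIdeal := by
      intro x hx
      have h3 : cI (τ⁻¹) x ∈ (cj τ (g v)).asIdeal := by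
        rw [cj_mem]
        have : cI τ (cI τ⁻¹ x) = x := by
          apply oext'
          change τ (τ⁻¹ (x : L)) = (x : L)
          exact AlgEquiv.apply_symm_apply τ _
        rw [this]
        exact hx
      rw [← h2, cj_mem] at h3
      exact h3
    have hρ1 : σ * τ⁻¹ ≠ 1 := by
      intro h3
      exact hστ (mul_inv_eq_one.1 h3)
    obtain ⟨m, hm⟩ := (hres v).2 θ
    have hm3 := hρ _ hm
    have hm4 : θ - cI (σ * τ⁻¹) θ = (θ - (m : 𝓞 L)) - cI (σ * τ⁻¹) (θ - (m : 𝓞 L)) := by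
      rw [map_sub, map_natCast]
      ring
    have hm5 : θ - cI (σ * τ⁻¹) θ ∈ (g v).asIdeal := by
      rw [hm4]
      exact (g v).asIdeal.sub_mem hm hm3
    apply v.2.2
    rw [hTm]
    refine ⟨g v, ?_, HeightOneSpectrum.ext (hgo v)⟩
    rw [hWd]
    exact ⟨_, hρ1, hm5⟩
  obtain ⟨C1, hC1⟩ := H63.MA.pz_all L
  obtain ⟨C2, hC2⟩ := H63.MA.pz_finite hTf
  refine ⟨C1 + Module.finrank K L * C2, fun s hs hs2 => ?_⟩
  have e1 := (abs_le.1 (hC1 s hs hs2)).2
  have e2 := hC2 s hs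
  have e3 : PZ S s ≤ PZ (S \ T) s + PZ T s := by
    refine (H63.MA.pz_mono (S' := (S \ T) ∪ T) ?_ hs).trans (spl_union _ _ hs)
    intro v hv
    by_cases h : v ∈ T
    · exact Or.inr h
    · exact Or.inl ⟨hv, h⟩
  have e4 : PZ (Set.range f) s = Module.finrank K L * PZ (S \ T) s := by
    unfold PZ
    rw [← tsum_subtype, ← tsum_subtype, tsum_range (fun w : Pl L => (nm w : ℝ) ^ (-s)) hfi]
    have hsum : Summable fun v : (S \ T : Set (Pl K)) => (nm v.1 : ℝ) ^ (-s) :=
      (H63.MA.pz_summable K hs).comp_injective Subtype.val_injective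
    have h5 : ∀ p, (nm (f p) : ℝ) ^ (-s) = (nm p.1.1 : ℝ) ^ (-s) := fun p => by rw [hfn]
    rw [tsum_congr h5]
    have hsum2 : Summable fun p : (S \ T : Set (Pl K)) × (L ≃ₐ[K] L) =>
        (nm p.1.1 : ℝ) ^ (-s) := by
      have := ((H63.MA.pz_summable L hs).comp_injective hfi)
      refine this.congr fun p => ?_
      rw [Function.comp_apply, hfn]
    rw [hsum2.tsum_prod' (fun v => Summable.of_finite)]
    have h6 : ∀ v : (S \ T : Set (Pl K)), ∑' _ : (L ≃ₐ[K] L), (nm v.1 : ℝ) ^ (-s) =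
        Module.finrank K L * (nm v.1 : ℝ) ^ (-s) := by
      intro v
      rw [tsum_fintype, Finset.sum_const, nsmul_eq_mul, Finset.card_univ,
        ← Nat.card_eq_fintype_card, IsGalois.card_aut_eq_finrank]
    rw [tsum_congr h6, tsum_mul_left]
  have e5 := H63.MA.pz_mono (Set.subset_univ (Set.range f)) hs
  have e6 : (0 : ℝ) ≤ Module.finrank K L := Nat.cast_nonneg _
  have e7 := mul_le_mul_of_nonneg_left e3 e6
  have e8 := mul_le_mul_of_nonneg_left e2 e6
  rw [mul_add] at e7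
  linarith

end H13.KU
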