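import Mathlib

/-!
# KU-TRI: powers in a cyclotomic extension (the commutator trick)

`K = M(ζ)`, `ζ` of order `R`, is Galois over `M` (`IsCyclotomicExtension.isGalois`). For `τ ∈ Gal(K/M)`: `τ ζ = ζ ^ k'`
(`IsPrimitiveRoot.autToPow` or: `τ ζ` is an `R`-th root of unity, `IsPrimitiveRoot.eq_pow_of_pow_eq_one`), and
`(τ β / β) ^ m = 1` (`β ≠ 0` as `x ≠ 0`; if `m = 0` then `R = 0` is excluded), so `τ β = ζ ^ a β` for some `a` because `m ∣ R`.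
Also `σ β = ζ ^ b β`. `σ` and `τ` commute on `ζ`, `σ τ β = σ(ζ ^ a) σ β = ζ ^ (a k) ζ ^ b β` and
`τ σ β = τ(ζ ^ b) ζ ^ a β`. The two are equal: `σ τ = τ σ` (both agree on `ζ`, which generates `K` over `M`:
`IsCyclotomicExtension.Aut.commGroup` or `IsPrimitiveRoot.autToPow_injective`). So `τ(ζ ^ b) = ζ ^ (a (k - 1)) ζ ^ b`,
and `τ(β ^ (k - 1)) = ζ ^ (a (k - 1)) β ^ (k - 1)`. Hence `c = β ^ (k - 1) / ζ ^ b` is fixed by all `τ`, so `c ∈ M`, and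
`c ^ m = x ^ (k - 1) / (ζ ^ b) ^ m = x ^ (k - 1)` since `(ζ ^ b) ^ m = (σ β / β) ^ m = 1`.
-/

set_option autoImplicit false

open Polynomial NumberField

namespace H13.KU

private theorem pow_of {M K : Type} [Field M] [Field K] [Algebra M K] (R : ℕ) [NeZero R] (ζ : K)
    (hζ : IsPrimitiveRoot ζ R) (m : ℕ) (hm : m ∣ R) (x : M) (β : K) (hβ0 : β ≠ 0)
    (hβ : β ^ m = algebraMap M K x) (τ : K ≃ₐ[M] K) : ∃ a : ℕ, τ β = ζ ^ a * β ∧ (ζ ^ a) ^ m = 1 := by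
  have h1 : (τ β / β) ^ m = 1 := by
    rw [div_pow, ← map_pow, hβ, AlgEquiv.commutes, div_self]
    rw [← hβ]
    exact pow_ne_zero _ hβ0
  have h2 : (τ β / β) ^ R = 1 := by
    obtain ⟨r, hr⟩ := hm
    rw [hr, pow_mul, h1, one_pow]
  obtain ⟨a, _, ha⟩ := hζ.eq_pow_of_pow_eq_one h2
  refine ⟨a, ?_, ?_⟩
  · rw [ha, div_mul_cancel₀ _ hβ0]
  · rw [ha, h1]

theorem tri {M K : Type} [Field M] [NumberField M] [Field K] [NumberField K] [Algebra M K] (R : ℕ)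
    [NeZero R] [IsCyclotomicExtension {R} M K] (ζ : K) (hζ : IsPrimitiveRoot ζ R) (m : ℕ)
    (hm : m ∣ R) (x : M) (hx : x ≠ 0) (β : K) (hβ : β ^ m = algebraMap M K x) (σ : K ≃ₐ[M] K)
    (k : ℕ) (hk : 1 ≤ k) (hσ : σ ζ = ζ ^ k) : ∃ c : M, x ^ (k - 1) = c ^ m := by
  have hm0 : m ≠ 0 := by
    rintro rfl
    exact NeZero.ne R (Nat.eq_zero_of_zero_dvd hm)
  have hβ0 : β ≠ 0 := by
    rintro rfl
    rw [zero_pow hm0] at hβ
    exact hx ((map_eq_zero _).1 hβ.symm)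
  have hζ0 : ζ ≠ 0 := hζ.ne_zero (NeZero.ne R)
  have hgal : IsGalois M K := IsCyclotomicExtension.isGalois {R} M K
  obtain ⟨b, hb, hbm⟩ := pow_of R ζ hζ m hm x β hβ0 hβ σ
  -- the automorphisms commute
  have hcomm : ∀ τ : K ≃ₐ[M] K, σ (τ β) = τ (σ β) := by
    intro τ
    have h1 : τ * σ = σ * τ := (IsCyclotomicExtension.isMulCommutative {R} M K).is_comm.comm τ σ
    have h2 := DFunLike.congr_fun h1 β
    exact h2.symm
  have hfix : ∀ τ : K ≃ₐ[M] K, τ (β ^ (k - 1) / ζ ^ b) = β ^ (k - 1) / ζ ^ b := by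
    intro τ
    obtain ⟨a, ha, -⟩ := pow_of R ζ hζ m hm x β hβ0 hβ τ
    have h1 := hcomm τ
    rw [ha, hb, map_mul, map_mul, map_pow, hσ, ha, hb] at h1
    -- `(ζ ^ k) ^ a * (ζ ^ b * β) = τ (ζ ^ b) * (ζ ^ a * β)`
    have h2 : τ (ζ ^ b) * ζ ^ a = (ζ ^ k) ^ a * ζ ^ b := by
      have h3 : (τ (ζ ^ b) * ζ ^ a) * β = ((ζ ^ k) ^ a * ζ ^ b) * β := by
        rw [mul_assoc, mul_assoc]
        exact h1.symm
      exact mul_right_cancel₀ hβ0 h3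
    have h4 : (ζ ^ k) ^ a = ζ ^ (a * (k - 1)) * ζ ^ a := by
      rw [← pow_mul, ← pow_add]
      congr 1
      obtain ⟨k', rfl⟩ : ∃ k', k = k' + 1 := ⟨k - 1, by omega⟩
      simp only [Nat.add_sub_cancel]
      ring
    have h5 : τ (ζ ^ b) = ζ ^ (a * (k - 1)) * ζ ^ b := by
      have h6 : τ (ζ ^ b) * ζ ^ a = (ζ ^ (a * (k - 1)) * ζ ^ b) * ζ ^ a := by
        rw [h2, h4]
        ring
      exact mul_right_cancel₀ (pow_ne_zero _ hζ0) h6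
    rw [map_div₀, h5, map_pow, ha, mul_pow, ← pow_mul]
    exact mul_div_mul_left _ _ (pow_ne_zero _ hζ0)
  obtain ⟨c, hc⟩ := (IsGalois.mem_bot_iff_fixed (F := M) (E := K) (β ^ (k - 1) / ζ ^ b)).2 hfix
  refine ⟨c, ?_⟩
  apply (algebraMap M K).injective
  have hc' : algebraMap M K c = β ^ (k - 1) / ζ ^ b := hc
  rw [map_pow, map_pow, hc', div_pow, hbm, div_one, ← hβ]
  ring

end H13.KU
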